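import Pool.Agent.H84.At.Main
import Pool.Agent.H84.At.Bridge
import Pool.Agent.H17.AB.Asm
import Pool.Agent.H17.AB.Pow
import Pool.Agent.H80.ThF

/-!
# MP_c5ea68_al: base change for the Atiyah conjecture, for all groups

(1) If `G × G` embeds in `G`, then `G` satisfies the Atiyah conjecture with coefficients in a
subfield `F` of `ℂ` if and only if it does with coefficients in `ℂ`. This holds for Thompson's group
`F`, which is torsion-free.
(2) For every group `G` and every subfield `F` of `ℂ`: all direct powers `G^n` satisfy the Atiyah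
conjecture with coefficients in `F` if and only if they all satisfy it with coefficients in `ℂ`.
(3) The Atiyah conjecture for all torsion-free groups with coefficients in `F` (for example `F = ℚ`)
is equivalent to the Atiyah conjecture for all torsion-free groups with coefficients in `ℂ`.
(4) Either every torsion-free group satisfies the Atiyah conjecture with coefficients in `ℂ`, or
every real number `r ≥ 0` is the von Neumann dimension of the kernel of a matrix over `ℚ[G]` for some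
finitely generated torsion-free group `G`.
-/

set_option autoImplicit false

namespace Pool.Agent.Results.MP_c5ea68_al.BaseChange

/-- the Hilbert space `ℓ²(α)` -/
abbrev L2 (α : Type) : Type := lp (fun _ : α => ℂ) 2

/-- `x A = 0`, for `x ∈ ℓ²(G)^m` and an `m × n` matrix `A` over `ℂ G` -/
def Solves {G : Type} [Group G] {m n : ℕ} (A : Matrix (Fin m) (Fin n) (G →₀ ℂ))
    (x : L2 (G × Fin m)) : Prop :=
  ∀ (j : Fin n) (g : G), ∑ i : Fin m, ∑ h ∈ (A i j).support, x (g * h⁻¹, i) * A i j h = 0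

/-- the kernel of `x ↦ x A` on `ℓ²(G)^m` -/
noncomputable def Kernel {G : Type} [Group G] {m n : ℕ} (A : Matrix (Fin m) (Fin n) (G →₀ ℂ)) :
    Submodule ℂ (L2 (G × Fin m)) := Submodule.span ℂ {x | Solves A x}

/-- the distance of `x` to the orthogonal complement of `K`, that is the norm of the projection of
`x` to the closure of `K` -/
noncomputable def projNorm {α : Type} (K : Submodule ℂ (L2 α)) (x : L2 α) : ℝ :=
  Metric.infDist x (Kᗮ : Set (L2 α))

/-- the basis vector at `a` -/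
noncomputable def basis {α : Type} [DecidableEq α] (a : α) : L2 α := lp.single 2 a (1 : ℂ)

/-- the von Neumann dimension of the kernel of `x ↦ x A` on `ℓ²(G)^m` -/
noncomputable def kerDim {G : Type} [Group G] [DecidableEq G] {m n : ℕ}
    (A : Matrix (Fin m) (Fin n) (G →₀ ℂ)) : ℝ :=
  ∑ i : Fin m, projNorm (Kernel A) (basis ((1 : G), i)) ^ 2

/-- torsion-free groups -/
def TorsionFree (G : Type) [Group G] : Prop := ∀ g : G, g ≠ 1 → ¬ IsOfFinOrder g

/-- the entries of `A` lie in `F G` -/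
def CoeffsIn (F : Subfield ℂ) {G : Type} {m n : ℕ} (A : Matrix (Fin m) (Fin n) (G →₀ ℂ)) : Prop :=
  ∀ (i : Fin m) (j : Fin n) (g : G), A i j g ∈ F

/-- `G` satisfies the Atiyah conjecture with coefficients in `F`: all kernels of matrices over `F G`
have integral dimension -/
def AtiyahFor (F : Subfield ℂ) (G : Type) [Group G] [DecidableEq G] : Prop :=
  ∀ (m n : ℕ) (A : Matrix (Fin m) (Fin n) (G →₀ ℂ)), CoeffsIn F A → ∃ k : ℕ, kerDim A = (k : ℝ)

/-- every torsion-free group satisfies the Atiyah conjecture with coefficients in `F` -/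
def Atiyah (F : Subfield ℂ) : Prop :=
  ∀ (G : Type) [Group G] [DecidableEq G], TorsionFree G → AtiyahFor F G

/-- `r` is the dimension of a kernel over a finitely generated torsion-free group, with
coefficients in `F` -/
def Occurs (F : Subfield ℂ) (r : ℝ) : Prop :=
  ∃ (G : Type) (_ : Group G) (_ : DecidableEq G), Group.FG G ∧ TorsionFree G ∧
    ∃ (m n : ℕ) (A : Matrix (Fin m) (Fin n) (G →₀ ℂ)), CoeffsIn F A ∧ kerDim A = r

theorem kerDim_eq_nd {G : Type} [Group G] [DecidableEq G] {m n : ℕ}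
    (A : Matrix (Fin m) (Fin n) (G →₀ ℂ)) :
    kerDim A = Pool.Agent.H84.At.nd (Pool.Agent.H84.At.ker A) :=
  Pool.Agent.H84.At.kerDim_eq A

theorem atiyahFor_iff {F : Subfield ℂ} {G : Type} [Group G] [DecidableEq G] :
    AtiyahFor F G ↔ Pool.Agent.H84.At.AB.AI F G := by
  constructor
  · intro h ι κ _ _ A hA
    obtain ⟨k, hk⟩ := h (Fintype.card ι) (Fintype.card κ)
      (A.submatrix (Fintype.equivFin ι).symm (Fintype.equivFin κ).symm)
      (fun i j g => hA _ _ g)
    refine ⟨k, ?_⟩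
    rw [kerDim_eq_nd, Pool.Agent.H84.At.nd_ker_submatrix] at hk
    exact hk
  · intro h m n A hA
    obtain ⟨k, hk⟩ := h (Fin m) (Fin n) A hA
    exact ⟨k, by rw [kerDim_eq_nd, hk]⟩

theorem top_of {F : Subfield ℂ} {G : Type} [Group G] [DecidableEq G] (h : AtiyahFor ⊤ G) :
    AtiyahFor F G :=
  fun m n A _ => h m n A (fun _ _ _ => trivial)

theorem powers {F : Subfield ℂ} {G : Type} [Group G] [DecidableEq G]
    (h : ∀ n : ℕ, AtiyahFor F (Fin n → G)) (n : ℕ) : AtiyahFor ⊤ (Fin n → G) := by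
  obtain ⟨α, β, hα, hβ, hc, hd⟩ := Pool.Agent.H84.At.AB.exists_copies G
  have h1 : Pool.Agent.H84.At.AB.AI F (Pool.Agent.H84.At.AB.FS G) :=
    Pool.Agent.H84.At.AB.ai_FS fun n => atiyahFor_iff.1 (h n)
  exact atiyahFor_iff.2 (Pool.Agent.H84.At.AB.ai_pow_of_FS
    (Pool.Agent.H84.At.AB.base_change α β hα hβ hc hd h1) n)

theorem single {F : Subfield ℂ} {G : Type} [Group G] [DecidableEq G]
    (h : ∀ n : ℕ, AtiyahFor F (Fin n → G)) : AtiyahFor ⊤ G := by
  let φ : G →* (Fin 1 → G) :=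
    { toFun := fun g _ => g
      map_one' := rfl
      map_mul' := fun _ _ => rfl }
  have hφ : Function.Injective φ := fun a b hab => congrFun hab 0
  exact atiyahFor_iff.2 (Pool.Agent.H84.At.AB.ai_of_inj φ hφ (atiyahFor_iff.1 (powers h 1)))

theorem pow_embed {G : Type} [Group G] (φ : G × G →* G) (hφ : Function.Injective φ) (n : ℕ) :
    ∃ ψ : (Fin n → G) →* G, Function.Injective ψ := by
  induction n with
  | zero => exact ⟨1, fun a b _ => Subsingleton.elim a b⟩
  | succ n ih =>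
    obtain ⟨ψ, hψ⟩ := ih
    refine ⟨{ toFun := fun f => φ (f 0, ψ fun i => f i.succ)
              map_one' := ?_
              map_mul' := ?_ }, ?_⟩
    · have h1 : ψ (fun i : Fin n => (1 : Fin (n + 1) → G) i.succ) = 1 := map_one ψ
      rw [h1]
      exact map_one φ
    · intro f g
      have h1 : ψ (fun i : Fin n => (f * g) i.succ) =
          ψ (fun i => f i.succ) * ψ (fun i => g i.succ) :=
        map_mul ψ (fun i => f i.succ) (fun i => g i.succ)
      rw [h1, ← map_mul φ]
      rfl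
    · intro f g hfg
      have h1 := Prod.ext_iff.1 (hφ hfg)
      have h2 : (fun i : Fin n => f i.succ) = fun i => g i.succ := hψ h1.2
      funext i
      refine Fin.cases h1.1 (fun j => ?_) i
      exact congrFun h2 j

theorem self_product {F : Subfield ℂ} {G : Type} [Group G] [DecidableEq G] (φ : G × G →* G)
    (hφ : Function.Injective φ) : AtiyahFor F G ↔ AtiyahFor ⊤ G := by
  refine ⟨fun h => single (F := F) fun n => ?_, top_of⟩
  obtain ⟨ψ, hψ⟩ := pow_embed φ hφ n
  exact atiyahFor_iff.2 (Pool.Agent.H84.At.AB.ai_of_inj ψ hψ (atiyahFor_iff.1 h))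

theorem torsionFree_iff {F : Subfield ℂ} : Atiyah F ↔ Atiyah ⊤ := by
  constructor
  · intro h G _ _ hG
    exact single fun n => h (Fin n → G) (Pool.Agent.H84.At.AB.tf_pi hG n)
  · intro h G _ _ hG
    exact top_of (h G hG)

theorem dich : Atiyah ⊥ ∨ ∀ r : ℝ, 0 ≤ r → Occurs ⊥ r := by
  have hF : ∀ z ∈ (⊥ : Subfield ℂ), (starRingEnd ℂ) z ∈ (⊥ : Subfield ℂ) := by
    intro z hz
    have h1 : (⊥ : Subfield ℂ) ≤ (⊥ : Subfield ℂ).comap (starRingEnd ℂ) := bot_le
    exact h1 hz
  by_cases h : ∃ r₀ : ℝ, Pool.Agent.H84.At.Val ⊥ r₀ ∧ ∀ k : ℕ, r₀ ≠ k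
  · right
    obtain ⟨r₀, h₀, hn⟩ := h
    intro r hr
    obtain ⟨G, hG, m, n, A, h1, h2, h3, h4⟩ :=
      Pool.Agent.H84.At.val_fg (Pool.Agent.H84.At.dich hF h₀ hn r hr)
    refine ⟨G, hG, Classical.decEq G, h1, h2, m, n, A, h3, ?_⟩
    rw [← h4]
    exact @kerDim_eq_nd G hG (Classical.decEq G) m n A
  · left
    intro G _ _ hG m n A hA
    by_contra hc
    push Not at hc
    exact h ⟨Pool.Agent.H84.At.nd (Pool.Agent.H84.At.ker A),
      ⟨G, inferInstance, m, n, A, hG, hA, rfl⟩,
      fun k hk => hc k (by rw [kerDim_eq_nd]; exact hk)⟩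

theorem thompson (F : Subfield ℂ) [DecidableEq Pool.Agent.H80.ThF.thompsonF] :
    AtiyahFor F Pool.Agent.H80.ThF.thompsonF ↔ AtiyahFor ⊤ Pool.Agent.H80.ThF.thompsonF :=
  self_product Pool.Agent.H80.ThF.embed Pool.Agent.H80.ThF.embed_injective

theorem result :
    (∀ (F : Subfield ℂ) (G : Type) [Group G] [DecidableEq G],
      (∃ φ : G × G →* G, Function.Injective φ) → (AtiyahFor F G ↔ AtiyahFor ⊤ G)) ∧
    (TorsionFree Pool.Agent.H80.ThF.thompsonF ∧
      ∀ (F : Subfield ℂ) [DecidableEq Pool.Agent.H80.ThF.thompsonF],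
        AtiyahFor F Pool.Agent.H80.ThF.thompsonF ↔ AtiyahFor ⊤ Pool.Agent.H80.ThF.thompsonF) ∧
    (∀ (F : Subfield ℂ) (G : Type) [Group G] [DecidableEq G],
      (∀ n : ℕ, AtiyahFor F (Fin n → G)) ↔ (∀ n : ℕ, AtiyahFor ⊤ (Fin n → G))) ∧
    (∀ F : Subfield ℂ, Atiyah F ↔ Atiyah ⊤) ∧
    (Atiyah ⊤ ∨ ∀ r : ℝ, 0 ≤ r → Occurs ⊥ r) := by
  refine ⟨fun F G _ _ ⟨φ, hφ⟩ => self_product φ hφ,
    ⟨Pool.Agent.H80.ThF.torsionFree, fun F _ => thompson F⟩,
    fun F G _ _ => ⟨powers, fun h n => top_of (h n)⟩, fun F => torsionFree_iff, ?_⟩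
  rcases dich with h | h
  · exact Or.inl (torsionFree_iff.1 h)
  · exact Or.inr h

end Pool.Agent.Results.MP_c5ea68_al.BaseChange
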