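import Pool.Agent.H84.At.Bridge
import Pool.Agent.H84.BT.Gl2
import Pool.Agent.H14.TT.PrT
import Pool.Agent.H14.TT.TcO
import Pool.Agent.H84.RX.HigC
import Pool.Agent.H84.CX.Cls
import Pool.Agent.H19.GT.FolOps

/-!
# MP_c5ea68_al: the Atiyah conjecture over `ℂ` for groups acting on trees
-/

set_option autoImplicit false

namespace Pool.Agent.Results.MP_c5ea68_al.TreeActions

/-- the Hilbert space `ℓ²(α)` -/
abbrev L2 (α : Type) : Type := lp (fun _ : α => ℂ) 2

/-- `x A = 0`, for `x ∈ ℓ²(G)^m` and an `m × n` matrix `A` over `ℂ G` -/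
def Solves {G : Type} [Group G] {m n : ℕ} (A : Matrix (Fin m) (Fin n) (G →₀ ℂ))
    (x : L2 (G × Fin m)) : Prop :=
  ∀ (j : Fin n) (g : G), ∑ i : Fin m, ∑ h ∈ (A i j).support, x (g * h⁻¹, i) * A i j h = 0

/-- the kernel of `x ↦ x A` on `ℓ²(G)^m` -/
noncomputable def Kernel {G : Type} [Group G] {m n : ℕ} (A : Matrix (Fin m) (Fin n) (G →₀ ℂ)) :
    Submodule ℂ (L2 (G × Fin m)) := Submodule.span ℂ {x | Solves A x}

/-- the distance of `x` to the orthogonal complement of `K`, that is the norm of the projection of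
`x` to the closure of `K` -/
noncomputable def projNorm {α : Type} (K : Submodule ℂ (L2 α)) (x : L2 α) : ℝ :=
  Metric.infDist x (Kᗮ : Set (L2 α))

open Classical in
/-- the basis vector at `a` -/
noncomputable def basis {α : Type} (a : α) : L2 α := lp.single 2 a (1 : ℂ)

/-- the von Neumann dimension of the kernel of `x ↦ x A` on `ℓ²(G)^m` -/
noncomputable def kerDim {G : Type} [Group G] {m n : ℕ}
    (A : Matrix (Fin m) (Fin n) (G →₀ ℂ)) : ℝ :=
  ∑ i : Fin m, projNorm (Kernel A) (basis ((1 : G), i)) ^ 2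

/-- `G` satisfies the Atiyah conjecture over `ℂ`: all kernels of matrices over `ℂ G` have integral
dimension -/
def Atiyah (G : Type) [Group G] : Prop :=
  ∀ (m n : ℕ) (A : Matrix (Fin m) (Fin n) (G →₀ ℂ)), ∃ k : ℕ, kerDim A = (k : ℝ)

/-- torsion-free groups -/
def TorsionFree (G : Type) [Group G] : Prop := ∀ g : G, g ≠ 1 → ¬ IsOfFinOrder g

/-- `G` acts on the graph `T` by automorphisms -/
def ActsOn (G : Type) {V : Type} [Group G] [MulAction G V] (T : SimpleGraph V) : Prop :=
  ∀ (g : G) (v w : V), T.Adj v w → T.Adj (g • v) (g • w)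

/-- no element of `G` exchanges two adjacent vertices -/
def NoInversions (G : Type) {V : Type} [Group G] [MulAction G V] (T : SimpleGraph V) : Prop :=
  ∀ (g : G) (v w : V), T.Adj v w → ¬ (g • v = w ∧ g • w = v)

/-- amenability, by Foelner sets -/
def Amenable (Q : Type) [Group Q] : Prop :=
  ∀ (S : Finset Q) (ε : ℝ), 0 < ε → ∃ F : Finset Q, F.Nonempty ∧
    ∀ s ∈ S, (Set.ncard {f : Q | f ∈ F ∧ f * s ∉ F} : ℝ) ≤ ε * F.card

/-- the class `K` of groups -/
inductive InK : (H : Type) → [Group H] → Prop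
  | trivial {H : Type} [Group H] : Subsingleton H → InK H
  | tree {H V : Type} [Group H] [MulAction H V] (T : SimpleGraph V) : T.IsTree → ActsOn H T →
      NoInversions H T → (∀ v : V, InK (MulAction.stabilizer H v)) → InK H
  | amenableQuotient {H : Type} [Group H] (N : Subgroup H) [N.Normal] : InK N → Amenable (H ⧸ N) →
      UniqueProds (H ⧸ N) → InK H
  | locally {H : Type} [Group H] (K : Finset H → Subgroup H) : (∀ S : Finset H, (S : Set H) ⊆ K S) →
      (∀ S : Finset H, InK (K S)) → InK H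
  | iso {H H' : Type} [Group H] [Group H'] : (H ≃* H') → InK H → InK H'

/-- commensurated subgroups: `L ∩ g L g⁻¹` has finite index in `L` for all `g` -/
def Commensurated {G : Type} [Group G] (L : Subgroup G) : Prop :=
  ∀ g : G, (L.map (MulAut.conj g).toMonoidHom).relIndex L ≠ 0

/-- the class `P` of pairs `L ≤ H` -/
inductive InP : ∀ {H : Type} [Group H], Subgroup H → Prop
  | finiteIndex {H : Type} [Group H] (L : Subgroup H) : L.FiniteIndex → Atiyah H → InP L
  | tree {H V : Type} [Group H] [MulAction H V] (L : Subgroup H) (T : SimpleGraph V) : T.IsTree →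
      ActsOn H T → NoInversions H T → (∀ v w : V, T.Adj v w →
        (MulAction.stabilizer H v ⊓ MulAction.stabilizer H w).relIndex
          (L ⊓ MulAction.stabilizer H v) ≠ 0) →
      (∀ v : V, InP (L.subgroupOf (MulAction.stabilizer H v))) → InP L
  | amenableQuotient {H : Type} [Group H] (L N : Subgroup H) [N.Normal] : InP (L.subgroupOf N) →
      Amenable (H ⧸ N) → UniqueProds (H ⧸ N) → InP L
  | locally {H : Type} [Group H] (L : Subgroup H) (K : Finset H → Subgroup H) :
      (∀ S : Finset H, (S : Set H) ⊆ K S) → (∀ S : Finset H, InP (L.subgroupOf (K S))) → InP L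
  | iso {H H' : Type} [Group H] [Group H'] (L : Subgroup H) (e : H ≃* H') : InP L →
      InP (L.map e.toMonoidHom)

/-- the relations `x_i x_{i+1} x_i⁻¹ = x_{i+1}²`, `i` modulo `4` -/
def higmanRels : Set (FreeGroup (ZMod 4)) :=
  Set.range fun i : ZMod 4 =>
    FreeGroup.of i * FreeGroup.of (i + 1) * (FreeGroup.of i)⁻¹ * (FreeGroup.of (i + 1) ^ 2)⁻¹

/-- Higman's group -/
abbrev Higman : Type := PresentedGroup higmanRels

theorem basis_eq {α : Type} (a : α) : basis a = Pool.Agent.H84.At.dl a := rfl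

theorem kernel_eq {G : Type} [Group G] {m n : ℕ} (A : Matrix (Fin m) (Fin n) (G →₀ ℂ)) :
    Kernel A = Pool.Agent.H84.At.ker A := by
  have hset : {x : L2 (G × Fin m) | Solves A x} =
      (Pool.Agent.H84.At.ker A : Set (Pool.Agent.H84.At.E (G × Fin m))) := by
    ext x
    exact (Pool.Agent.H84.At.mem_ker_iff A x).symm
  unfold Kernel
  rw [hset, Submodule.span_eq]

theorem kerDim_eq_nd {G : Type} [Group G] {m n : ℕ} (A : Matrix (Fin m) (Fin n) (G →₀ ℂ)) :
    kerDim A = Pool.Agent.H84.At.nd (Pool.Agent.H84.At.ker A) := by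
  unfold kerDim Pool.Agent.H84.At.nd
  refine Finset.sum_congr rfl fun i _ => ?_
  unfold projNorm
  rw [kernel_eq, basis_eq, Pool.Agent.H84.At.infDist_orth]

theorem atiyah_iff {G : Type} [Group G] : Atiyah G ↔ Pool.Agent.H84.GT.Aty G := by
  constructor
  · intro h m n A
    obtain ⟨k, hk⟩ := h m n A
    exact ⟨k, by rw [← kerDim_eq_nd]; exact hk⟩
  · intro h m n A
    obtain ⟨k, hk⟩ := h m n A
    exact ⟨k, by rw [kerDim_eq_nd]; exact hk⟩

theorem fol_of {Q : Type} [Group Q] (h : Amenable Q) : Pool.Agent.H19.GT.Fol Q := by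
  classical
  intro S ε hε
  obtain ⟨F, hF, hs⟩ := h S ε hε
  refine ⟨F, hF, fun s hs' => ?_⟩
  have h1 := hs s hs'
  have h2 : {f : Q | f ∈ F ∧ f * s ∉ F} = ((F.filter fun f => f * s ∉ F : Finset Q) : Set Q) := by
    ext f
    simp
  rw [h2, Set.ncard_coe_finset] at h1
  convert h1

theorem inK_to {H : Type} [Group H] (h : InK H) : Pool.Agent.H14.TT.TC H := by
  induction h with
  | trivial h => exact Pool.Agent.H14.TT.TC.one h
  | tree T hT hG hi _ ih => exact Pool.Agent.H14.TT.TC.tree T hT hG hi ih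
  | amenableQuotient N _ hQ hU ih =>
    exact Pool.Agent.H14.TT.TC.up (QuotientGroup.mk' N) (QuotientGroup.mk'_surjective N)
      (Pool.Agent.H14.TT.TC.iso (MulEquiv.subgroupCongr (QuotientGroup.ker_mk' N).symm) ih)
      (fol_of hQ) hU
  | locally K hK _ ih => exact Pool.Agent.H14.TT.TC.union K hK ih
  | iso e _ ih => exact Pool.Agent.H14.TT.TC.iso e ih

theorem of_fol {Q : Type} [Group Q] (h : Pool.Agent.H19.GT.Fol Q) : Amenable Q := by
  classical
  intro S ε hε
  obtain ⟨F, hF, hs⟩ := h S ε hε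
  refine ⟨F, hF, fun s hs' => ?_⟩
  have h1 := hs s hs'
  have h2 : {f : Q | f ∈ F ∧ f * s ∉ F} = ((F.filter fun f => f * s ∉ F : Finset Q) : Set Q) := by
    ext f
    simp
  rw [h2, Set.ncard_coe_finset]
  convert h1

theorem up_equiv {A B : Type} [Group A] [Group B] (e : A ≃* B) (h : UniqueProds A) : UniqueProds B := by
  have h1 : Function.Injective (e.symm : B → A) := e.symm.injective
  exact UniqueProds.of_injective_mulHom (e.symm : B →ₙ* A) h1 h

theorem fol_equiv {A B : Type} [Group A] [Group B] (e : A ≃* B) (h : Amenable A) : Amenable B :=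
  of_fol (Pool.Agent.H19.GT.fol_iso e (fol_of h))

theorem clo_inK : Pool.Agent.H84.BT.Clo (fun (H : Type) [Group H] => InK H) where
  one H _ h := InK.trivial h
  iso e h := InK.iso e h
  up {H Q} _ _ p hp h hQ hU := by
    have e : H ⧸ p.ker ≃* Q := QuotientGroup.quotientKerEquivOfSurjective p hp
    exact InK.amenableQuotient p.ker h (fol_equiv e.symm (of_fol hQ)) (up_equiv e.symm hU)
  union K hK h := InK.locally K hK h
  tree T hT hG hi hv := InK.tree T hT hG hi hv

theorem of_tc {H : Type} [Group H] (h : Pool.Agent.H14.TT.TC H) : InK H := by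
  induction h with
  | one h => exact InK.trivial h
  | up p hp _ hQ hU ih => exact clo_inK.up p hp ih hQ hU
  | union K hK _ ih => exact InK.locally K hK ih
  | tree T hT hG hi _ ih => exact InK.tree T hT hG hi ih
  | iso e _ ih => exact InK.iso e ih

theorem pair_eq {G V : Type} [Group G] [MulAction G V] (v w : V) :
    MulAction.stabilizer G (v, w) = MulAction.stabilizer G v ⊓ MulAction.stabilizer G w := by
  ext g
  rw [Subgroup.mem_inf, MulAction.mem_stabilizer_iff, MulAction.mem_stabilizer_iff,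
    MulAction.mem_stabilizer_iff, Prod.smul_mk, Prod.mk.injEq]

theorem ck_of {H : Type} [Group H] {L : Subgroup H} (h : InP L) : Pool.Agent.H84.CX.CK L := by
  induction h with
  | finiteIndex L h hA =>
    refine Pool.Agent.H84.CX.CK.base L ?_ (atiyah_iff.1 hA)
    unfold Pool.Agent.H84.CX.Fo
    rw [Subgroup.relIndex_top_right]
    exact h.index_ne_zero
  | tree L T hT hG hi hl _ ih =>
    refine Pool.Agent.H84.CX.CK.tree L T hT hG hi (fun v w hvw => ?_) ih
    rw [pair_eq]
    exact hl v w hvw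
  | amenableQuotient L N _ hQ hU ih =>
    exact Pool.Agent.H84.CX.CK.up L (QuotientGroup.mk' N) (QuotientGroup.mk'_surjective N)
      (Pool.Agent.H84.CX.ck_cast L (QuotientGroup.ker_mk' N).symm ih) (fol_of hQ) hU
  | locally L K hK _ ih => exact Pool.Agent.H84.CX.CK.union L K hK ih
  | iso L e _ ih => exact Pool.Agent.H84.CX.CK.iso L e ih

theorem of_ck {H : Type} [Group H] {L : Subgroup H} (h : Pool.Agent.H84.CX.CK L) : InP L := by
  induction h with
  | base L hf hA =>
    refine InP.finiteIndex L ⟨?_⟩ (atiyah_iff.2 hA)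
    unfold Pool.Agent.H84.CX.Fo at hf
    rwa [Subgroup.relIndex_top_right] at hf
  | @up H Q _ _ L p hp _ hQ hU ih =>
    have e : H ⧸ p.ker ≃* Q := QuotientGroup.quotientKerEquivOfSurjective p hp
    exact InP.amenableQuotient L p.ker ih (fol_equiv e.symm (of_fol hQ)) (up_equiv e.symm hU)
  | union L K hK _ ih => exact InP.locally L K hK ih
  | tree L T hT hG hi hl _ ih =>
    refine InP.tree L T hT hG hi (fun v w hvw => ?_) ih
    rw [← pair_eq]
    exact hl v w hvw
  | iso L e _ ih => exact InP.iso L e ih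

theorem com {G : Type} [Group G] (L : Subgroup G) (hL : Commensurated L) (h : InP L) :
    Atiyah G := atiyah_iff.2 (Pool.Agent.H84.CX.cms_aty hL (ck_of h))

theorem rel {G : Type} [Group G] (N : Subgroup G) [N.Normal] (hN : Atiyah N)
    (h : InK (G ⧸ N)) : InP N := by
  have h1 := Pool.Agent.H84.CX.ck_of_tc (inK_to h) (QuotientGroup.mk' N)
    (QuotientGroup.mk'_surjective N) (by
      rw [QuotientGroup.ker_mk']
      exact atiyah_iff.1 hN)
  rw [QuotientGroup.ker_mk'] at h1
  exact of_ck h1

theorem com_normal {G : Type} [Group G] (N : Subgroup G) [hN : N.Normal] : Commensurated N :=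
  Pool.Agent.H84.CX.cms_normal hN

/-- see the claim file -/
theorem result :
    -- commensurated subgroups
    (∀ (G : Type) [Group G] (L : Subgroup G), Commensurated L → InP L → Atiyah G) ∧
    -- normal subgroups: extensions of groups with the Atiyah property by groups of the class `K`
    (∀ (G : Type) [Group G] (N : Subgroup G) [N.Normal], Atiyah N → InK (G ⧸ N) →
      InP N ∧ Atiyah G) ∧
    -- the groups of the class `K`
    (∀ (G : Type) [Group G], InK G → Atiyah G) ∧
    -- torsion-free groups acting with finite stabilisers on products of finitely many trees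
    (∀ (n : ℕ) (G : Type) [Group G] (V : Fin n → Type) [∀ i, MulAction G (V i)]
      (T : ∀ i, SimpleGraph (V i)), TorsionFree G → (∀ i, (T i).IsTree ∧ ActsOn G (T i)) →
      (∀ v : ∀ i, V i, {g : G | ∀ i, g • v i = v i}.Finite) → InK G ∧ Atiyah G) ∧
    -- torsion-free subgroups of `GL_2(F)`, `F` a field of positive characteristic
    (∀ (p : ℕ) [Fact p.Prime] (F : Type) [Field F] [CharP F p] (G : Subgroup (Matrix.GeneralLinearGroup (Fin 2) F)),
      TorsionFree G → InK G ∧ Atiyah G) ∧
    -- Higman's group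
    (InK Higman ∧ Atiyah Higman) := by
  have key : ∀ (G : Type) [Group G], InK G → Atiyah G := fun G _ h =>
    atiyah_iff.2 (Pool.Agent.H14.TT.tc_aty (inK_to h))
  refine ⟨fun G _ L hL h => com L hL h, fun G _ N _ hN h => ⟨rel N hN h, com N (com_normal N)
    (rel N hN h)⟩, key, ?_, ?_, ?_⟩
  · intro n G _ V _ T tf hT hst
    have h : InK G := Pool.Agent.H14.TT.prod_trees clo_inK n G tf V T (fun i => (hT i).1)
      (fun i => (hT i).2) hst
    exact ⟨h, key G h⟩
  · intro p _ F _ _ G tf
    have h : InK G := Pool.Agent.H84.BT.gl2 clo_inK tf G.subtype G.subtype_injective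
    exact ⟨h, key G h⟩
  · exact ⟨of_tc Pool.Agent.H84.RX.tc_higC, atiyah_iff.2 Pool.Agent.H14.TT.tc_hig⟩

end Pool.Agent.Results.MP_c5ea68_al.TreeActions
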