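import Pool.Agent.H84.At.Bridge
import Pool.Agent.H84.CX.NiceC

/-!
# MP_c5ea68_al: the Atiyah conjecture over `ℂ` for groups acting on trees
-/

set_option autoImplicit false

namespace Pool.Agent.Results.MP_c5ea68_al.TreeClosure

/-- the Hilbert space `ℓ²(α)` -/
abbrev L2 (α : Type) : Type := lp (fun _ : α => ℂ) 2

/-- `x A = 0`, for `x ∈ ℓ²(G)^m` and an `m × n` matrix `A` over `ℂ G` -/
def Solves {G : Type} [Group G] {m n : ℕ} (A : Matrix (Fin m) (Fin n) (G →₀ ℂ))
    (x : L2 (G × Fin m)) : Prop :=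
  ∀ (j : Fin n) (g : G), ∑ i : Fin m, ∑ h ∈ (A i j).support, x (g * h⁻¹, i) * A i j h = 0

/-- the kernel of `x ↦ x A` on `ℓ²(G)^m` -/
noncomputable def Kernel {G : Type} [Group G] {m n : ℕ} (A : Matrix (Fin m) (Fin n) (G →₀ ℂ)) :
    Submodule ℂ (L2 (G × Fin m)) := Submodule.span ℂ {x | Solves A x}

/-- the distance of `x` to the orthogonal complement of `K`, that is the norm of the projection of
`x` to the closure of `K` -/
noncomputable def projNorm {α : Type} (K : Submodule ℂ (L2 α)) (x : L2 α) : ℝ :=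
  Metric.infDist x (Kᗮ : Set (L2 α))

open Classical in
/-- the basis vector at `a` -/
noncomputable def basis {α : Type} (a : α) : L2 α := lp.single 2 a (1 : ℂ)

/-- the von Neumann dimension of the kernel of `x ↦ x A` on `ℓ²(G)^m` -/
noncomputable def kerDim {G : Type} [Group G] {m n : ℕ}
    (A : Matrix (Fin m) (Fin n) (G →₀ ℂ)) : ℝ :=
  ∑ i : Fin m, projNorm (Kernel A) (basis ((1 : G), i)) ^ 2

/-- `G` satisfies the Atiyah conjecture over `ℂ`: all kernels of matrices over `ℂ G` have integral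
dimension -/
def Atiyah (G : Type) [Group G] : Prop :=
  ∀ (m n : ℕ) (A : Matrix (Fin m) (Fin n) (G →₀ ℂ)), ∃ k : ℕ, kerDim A = (k : ℝ)

/-- `G` acts on the graph `T` by automorphisms -/
def ActsOn (G : Type) {V : Type} [Group G] [MulAction G V] (T : SimpleGraph V) : Prop :=
  ∀ (g : G) (v w : V), T.Adj v w → T.Adj (g • v) (g • w)

/-- no element of `G` exchanges two adjacent vertices -/
def NoInversions (G : Type) {V : Type} [Group G] [MulAction G V] (T : SimpleGraph V) : Prop :=
  ∀ (g : G) (v w : V), T.Adj v w → ¬ (g • v = w ∧ g • w = v)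

/-- amenability, by Foelner sets -/
def Amenable (Q : Type) [Group Q] : Prop :=
  ∀ (S : Finset Q) (ε : ℝ), 0 < ε → ∃ F : Finset Q, F.Nonempty ∧
    ∀ s ∈ S, (Set.ncard {f : Q | f ∈ F ∧ f * s ∉ F} : ℝ) ≤ ε * F.card

/-- the setwise stabiliser of `{v, w}` -/
def pairStab (G : Type) {V : Type} [Group G] [MulAction G V] (v w : V) : Subgroup G where
  carrier := {g | (g • v = v ∧ g • w = w) ∨ (g • v = w ∧ g • w = v)}
  mul_mem' := by
    rintro a b (⟨h1, h2⟩ | ⟨h1, h2⟩) (⟨h3, h4⟩ | ⟨h3, h4⟩)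
    · exact Or.inl ⟨by rw [mul_smul, h3, h1], by rw [mul_smul, h4, h2]⟩
    · exact Or.inr ⟨by rw [mul_smul, h3, h2], by rw [mul_smul, h4, h1]⟩
    · exact Or.inr ⟨by rw [mul_smul, h3, h1], by rw [mul_smul, h4, h2]⟩
    · exact Or.inl ⟨by rw [mul_smul, h3, h2], by rw [mul_smul, h4, h1]⟩
  one_mem' := Or.inl ⟨one_smul G v, one_smul G w⟩
  inv_mem' := by
    rintro a (⟨h1, h2⟩ | ⟨h1, h2⟩)
    · exact Or.inl ⟨by rw [inv_smul_eq_iff, h1], by rw [inv_smul_eq_iff, h2]⟩
    · exact Or.inr ⟨by rw [inv_smul_eq_iff, h2], by rw [inv_smul_eq_iff, h1]⟩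

/-- the stabiliser of the two vertices `v` and `w`, as a subgroup of the stabiliser of `v` -/
def edgeIn (G : Type) {V : Type} [Group G] [MulAction G V] (v w : V) :
    Subgroup (MulAction.stabilizer G v) where
  carrier := {g | (g : G) • w = w}
  mul_mem' := by
    intro a b ha hb
    show ((a : G) * (b : G)) • w = w
    rw [mul_smul]
    have ha' : (a : G) • w = w := ha
    have hb' : (b : G) • w = w := hb
    rw [hb', ha']
  one_mem' := one_smul G w
  inv_mem' := by
    intro a ha
    have ha' : (a : G) • w = w := ha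
    show (a : G)⁻¹ • w = w
    rw [inv_smul_eq_iff, ha']

/-- commensurated subgroups: `L ∩ h L h⁻¹` has finite index in `L` for all `h` -/
def Commensurated {H : Type} [Group H] (L : Subgroup H) : Prop :=
  ∀ h : H, (L.map (MulAut.conj h).toMonoidHom).relIndex L ≠ 0

/-- the class `P` of pairs `L ≤ H` -/
inductive InP : ∀ {H : Type} [Group H], Subgroup H → Prop
  | finiteIndex {H : Type} [Group H] (L : Subgroup H) : L.FiniteIndex → InP L
  | tree {H V : Type} [Group H] [MulAction H V] (L : Subgroup H) (T : SimpleGraph V) : T.IsTree →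
      ActsOn H T → NoInversions H T → (∀ v w : V, T.Adj v w →
        (MulAction.stabilizer H v ⊓ MulAction.stabilizer H w).relIndex
          (L ⊓ MulAction.stabilizer H v) ≠ 0) →
      (∀ v : V, InP (L.subgroupOf (MulAction.stabilizer H v))) → InP L
  | amenableQuotient {H : Type} [Group H] (L N : Subgroup H) [N.Normal] : InP (L.subgroupOf N) →
      Amenable (H ⧸ N) → UniqueProds (H ⧸ N) → InP L
  | locally {H : Type} [Group H] (L : Subgroup H) (K : Finset H → Subgroup H) :
      (∀ S : Finset H, (S : Set H) ⊆ K S) → (∀ S : Finset H, InP (L.subgroupOf (K S))) → InP L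
  | iso {H H' : Type} [Group H] [Group H'] (L : Subgroup H) (e : H ≃* H') : InP L →
      InP (L.map e.toMonoidHom)

/-- the class of nice subgroups -/
inductive Nice : ∀ {H : Type} [Group H], Subgroup H → Prop
  | commensurated {H : Type} [Group H] (L C : Subgroup H) : Commensurated L → InP L →
      C.relIndex L ≠ 0 → Nice C
  | amenableQuotient {H : Type} [Group H] (N C : Subgroup H) [N.Normal] : N ≤ C → N.relIndex C ≠ 0 →
      Amenable (H ⧸ N) → Nice C
  | trans {H : Type} [Group H] (C B : Subgroup H) : C ≤ B → Nice (C.subgroupOf B) → Nice B → Nice C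
  | restrict {H : Type} [Group H] (C B : Subgroup H) : C ≤ B → Atiyah H → Nice C → Nice (C.subgroupOf B)
  | vertexStab {G V : Type} [Group G] [MulAction G V] (T : SimpleGraph V) : T.IsTree → ActsOn G T →
      (∀ v w : V, T.Adj v w → Nice (edgeIn G v w)) → ∀ o : V, Nice (MulAction.stabilizer G o)
  | locally {H : Type} [Group H] (C : Subgroup H) (K : Finset H → Subgroup H) :
      (∀ S : Finset H, (S : Set H) ⊆ K S) → (∀ S : Finset H, Nice (C.subgroupOf (K S))) → Nice C

theorem basis_eq {α : Type} (a : α) : basis a = Pool.Agent.H84.At.dl a := rfl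

theorem kernel_eq {G : Type} [Group G] {m n : ℕ} (A : Matrix (Fin m) (Fin n) (G →₀ ℂ)) :
    Kernel A = Pool.Agent.H84.At.ker A := by
  have hset : {x : L2 (G × Fin m) | Solves A x} =
      (Pool.Agent.H84.At.ker A : Set (Pool.Agent.H84.At.E (G × Fin m))) := by
    ext x
    exact (Pool.Agent.H84.At.mem_ker_iff A x).symm
  unfold Kernel
  rw [hset, Submodule.span_eq]

theorem kerDim_eq_nd {G : Type} [Group G] {m n : ℕ} (A : Matrix (Fin m) (Fin n) (G →₀ ℂ)) :
    kerDim A = Pool.Agent.H84.At.nd (Pool.Agent.H84.At.ker A) := by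
  unfold kerDim Pool.Agent.H84.At.nd
  refine Finset.sum_congr rfl fun i _ => ?_
  unfold projNorm
  rw [kernel_eq, basis_eq, Pool.Agent.H84.At.infDist_orth]

theorem atiyah_iff {G : Type} [Group G] : Atiyah G ↔ Pool.Agent.H84.GT.Aty G := by
  constructor
  · intro h m n A
    obtain ⟨k, hk⟩ := h m n A
    exact ⟨k, by rw [← kerDim_eq_nd]; exact hk⟩
  · intro h m n A
    obtain ⟨k, hk⟩ := h m n A
    exact ⟨k, by rw [kerDim_eq_nd]; exact hk⟩

theorem pairStab_eq {G V : Type} [Group G] [MulAction G V] (v w : V) :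
    MulAction.stabilizer G s(v, w) = pairStab G v w := by
  ext g
  have h1 : g ∈ MulAction.stabilizer G s(v, w) ↔ s(g • v, g • w) = s(v, w) := Iff.rfl
  rw [h1, Sym2.eq_iff]
  exact Iff.rfl

theorem edgeIn_eq {G V : Type} [Group G] [MulAction G V] (v w : V) :
    (MulAction.stabilizer G (v, w)).subgroupOf (MulAction.stabilizer G v) = edgeIn G v w := by
  ext g
  have h1 : g ∈ (MulAction.stabilizer G (v, w)).subgroupOf (MulAction.stabilizer G v) ↔
      ((g : G) • v, (g : G) • w) = (v, w) := Iff.rfl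
  have h2 : g ∈ edgeIn G v w ↔ (g : G) • w = w := Iff.rfl
  rw [h1, h2, Prod.mk.injEq]
  exact ⟨fun h => h.2, fun h => ⟨g.2, h⟩⟩

theorem fol_of {Q : Type} [Group Q] (h : Amenable Q) : Pool.Agent.H19.GT.Fol Q := by
  classical
  intro S ε hε
  obtain ⟨F, hF, hs⟩ := h S ε hε
  refine ⟨F, hF, fun s hs' => ?_⟩
  have h1 := hs s hs'
  have h2 : {f : Q | f ∈ F ∧ f * s ∉ F} = ((F.filter fun f => f * s ∉ F : Finset Q) : Set Q) := by
    ext f
    simp
  rw [h2, Set.ncard_coe_finset] at h1
  convert h1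

theorem pair_eq {G V : Type} [Group G] [MulAction G V] (v w : V) :
    MulAction.stabilizer G (v, w) = MulAction.stabilizer G v ⊓ MulAction.stabilizer G w := by
  ext g
  rw [Subgroup.mem_inf, MulAction.mem_stabilizer_iff, MulAction.mem_stabilizer_iff,
    MulAction.mem_stabilizer_iff, Prod.smul_mk, Prod.mk.injEq]

theorem pk_of {H : Type} [Group H] {L : Subgroup H} (h : InP L) : Pool.Agent.H84.CX.PK L := by
  induction h with
  | finiteIndex L h =>
    refine Pool.Agent.H84.CX.PK.base L ?_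
    unfold Pool.Agent.H84.CX.Fo
    rw [Subgroup.relIndex_top_right]
    exact h.index_ne_zero
  | tree L T hT hG hi hl _ ih =>
    refine Pool.Agent.H84.CX.PK.tree L T hT hG hi (fun v w hvw => ?_) ih
    rw [pair_eq]
    exact hl v w hvw
  | amenableQuotient L N _ hQ hU ih =>
    refine Pool.Agent.H84.CX.PK.up L (QuotientGroup.mk' N) (QuotientGroup.mk'_surjective N) ?_
      (fol_of hQ) hU
    have h1 : ∀ N' : Subgroup _, N' = N → Pool.Agent.H84.CX.PK (L.subgroupOf N') := by
      intro N' hN'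
      subst hN'
      exact ih
    exact h1 _ (QuotientGroup.ker_mk' N)
  | locally L K hK _ ih => exact Pool.Agent.H84.CX.PK.union L K hK ih
  | iso L e _ ih => exact Pool.Agent.H84.CX.PK.iso L e ih

theorem nice_to {H : Type} [Group H] {C : Subgroup H} (h : Nice C) : Pool.Agent.H84.CX.NiceC C := by
  induction h with
  | commensurated L C h1 h2 h3 => exact Pool.Agent.H84.CX.NiceC.cms L C h1 (pk_of h2) h3
  | amenableQuotient N C h1 h2 h3 => exact Pool.Agent.H84.CX.NiceC.amen N C h1 h2 (fol_of h3)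
  | trans C B h1 _ _ ih1 ih2 => exact Pool.Agent.H84.CX.NiceC.trans C B h1 ih1 ih2
  | restrict C B h1 h2 _ ih => exact Pool.Agent.H84.CX.NiceC.restr C B h1 (atiyah_iff.1 h2) ih
  | @vertexStab G V _ _ T hT hG _ o ih =>
    refine Pool.Agent.H84.CX.NiceC.vert T hT hG (fun v w hvw => ?_) o
    rw [edgeIn_eq]
    exact ih v w hvw
  | locally C K hK _ ih => exact Pool.Agent.H84.CX.NiceC.union C K hK ih

/-- see the claim file -/
theorem result :
    ∀ (G V : Type) [Group G] [MulAction G V] (T : SimpleGraph V), T.IsTree → ActsOn G T →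
      (∀ v : V, Atiyah (MulAction.stabilizer G v)) →
      (∀ v w : V, T.Adj v w → Atiyah (pairStab G v w)) →
      (∀ v w : V, T.Adj v w → Nice (edgeIn G v w)) → Atiyah G := by
  intro G V _ _ T hT hG hv he hn
  refine atiyah_iff.2 (Pool.Agent.H84.CX.tree_niceC T hT hG
    (fun v => atiyah_iff.1 (hv v)) ?_ ?_)
  · intro v w hvw
    rw [pairStab_eq]
    exact atiyah_iff.1 (he v w hvw)
  · intro v w hvw
    rw [edgeIn_eq]
    exact nice_to (hn v w hvw)

end Pool.Agent.Results.MP_c5ea68_al.TreeClosure
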