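import Pool.Agent.H84.At.Bridge
import Pool.Agent.H78.GA.Low
import Pool.Agent.H78.GA.Hall
import Pool.Agent.H78.GA.Mon
import Pool.Agent.H78.GA.Cont
import Pool.Agent.H78.GA.Lin
import Pool.Agent.H78.ZC.Dg
import Pool.Agent.H78.ZC.Mz
import Pool.Agent.H78.ZC.Fam
import Pool.Agent.H78.ZC.Lc
import Pool.Agent.H78.ZC.Fdc
import Pool.Agent.H78.ZC.Fdd
import Pool.Agent.H78.ZC.Fde
import Pool.Agent.H78.ZC.Cj
import Pool.Agent.H78.ZC.Cde
import Pool.Agent.H78.ZB.Top
import Pool.Agent.H78.ZB.Gal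
import Pool.Agent.H84.At.Ind
import Pool.Agent.H17.AB.Pow
import Pool.Agent.H78.ZE.Iv
import Pool.Agent.H78.ZE.Iv2
import Pool.Agent.H78.ZE.Sal
import Pool.Agent.H78.ZE.Mp
import Pool.Agent.H78.ZF.Gal
import Pool.Agent.H78.ZF.Sp

/-!
# MP_c5ea68_al: the field of definition of the von Neumann dimensions, and base change

For every group `G` the sets of the matrices over `ℂ G` whose kernel has von Neumann dimension at least `r` are
algebraic sets over a field `k` which depends only on `G`. If `G` satisfies the determinant conjecture and the Atiyah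
conjecture with algebraic coefficients, then `k = ℚ`, and `G` satisfies the Atiyah conjecture over `ℂ`.
-/

set_option autoImplicit false

namespace Pool.Agent.Results.MP_c5ea68_al.ZariskiClosed

open MvPolynomial

/-- the Hilbert space `ℓ²(α)` -/
abbrev L2 (α : Type) : Type := lp (fun _ : α => ℂ) 2

/-- `x A = 0`, for `x ∈ ℓ²(G)^m` and an `m × n` matrix `A` over `ℂ G` -/
def Solves {G : Type} [Group G] {m n : ℕ} (A : Matrix (Fin m) (Fin n) (G →₀ ℂ))
    (x : L2 (G × Fin m)) : Prop :=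
  ∀ (j : Fin n) (g : G), ∑ i : Fin m, ∑ h ∈ (A i j).support, x (g * h⁻¹, i) * A i j h = 0

/-- the kernel of `x ↦ x A` on `ℓ²(G)^m` -/
noncomputable def Kernel {G : Type} [Group G] {m n : ℕ} (A : Matrix (Fin m) (Fin n) (G →₀ ℂ)) :
    Submodule ℂ (L2 (G × Fin m)) := Submodule.span ℂ {x | Solves A x}

/-- the distance of `x` to the orthogonal complement of `K`, that is the norm of the projection of
`x` to the closure of `K` -/
noncomputable def projNorm {α : Type} (K : Submodule ℂ (L2 α)) (x : L2 α) : ℝ :=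
  Metric.infDist x (Kᗮ : Set (L2 α))

/-- the basis vector at `a` -/
noncomputable def basis {α : Type} [DecidableEq α] (a : α) : L2 α := lp.single 2 a (1 : ℂ)

/-- the von Neumann dimension of the kernel of `x ↦ x A` on `ℓ²(G)^m` -/
noncomputable def kerDim {G : Type} [Group G] [DecidableEq G] {m n : ℕ}
    (A : Matrix (Fin m) (Fin n) (G →₀ ℂ)) : ℝ :=
  ∑ i : Fin m, projNorm (Kernel A) (basis ((1 : G), i)) ^ 2

/-- the value at `c` of a matrix over the group ring of `G` with coefficients in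
`ℂ[x_1, .., x_N]` -/
noncomputable def value {G : Type} {m n N : ℕ}
    (A : Matrix (Fin m) (Fin n) (G →₀ MvPolynomial (Fin N) ℂ)) (c : Fin N → ℂ) :
    Matrix (Fin m) (Fin n) (G →₀ ℂ) :=
  fun i j => (A i j).mapRange (eval c) (map_zero _)

/-- the zero set of a set of polynomials -/
def zeros {N : ℕ} (P : Set (MvPolynomial (Fin N) ℂ)) : Set (Fin N → ℂ) :=
  {c | ∀ f ∈ P, eval c f = 0}

/-- the entry `A i j` is supported in `S i j` -/
def SupportedIn {G : Type} {m n : ℕ} (S : Fin m → Fin n → Finset G)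
    (A : Matrix (Fin m) (Fin n) (G →₀ ℂ)) : Prop :=
  ∀ (i : Fin m) (j : Fin n) (g : G), A i j g ≠ 0 → g ∈ S i j

/-- the columns in which some row of `X` has a nonempty support -/
noncomputable def cols {G : Type} {m n : ℕ} (S : Fin m → Fin n → Finset G)
    (X : Finset (Fin m)) : Finset (Fin n) :=
  X.biUnion fun i => Finset.univ.filter fun j => (S i j).Nonempty

/-- the deficiency of the pattern: the maximum of `|X| - |cols X|` over all sets `X` of rows
(`0` for `X = ∅`) -/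
noncomputable def defect {G : Type} {m n : ℕ} (S : Fin m → Fin n → Finset G) : ℕ :=
  Finset.univ.sup fun X : Finset (Fin m) => X.card - (cols S X).card

/-- the coefficients of an `m × n` matrix whose `(i, j)` entry is supported in `S i j` -/
abbrev Coef {G : Type} {m n : ℕ} (S : Fin m → Fin n → Finset G) : Type :=
  (i : Fin m) × (j : Fin n) × {g : G // g ∈ S i j}

/-- the matrix with coefficients `c` -/
noncomputable def mat {G : Type} {m n : ℕ} (S : Fin m → Fin n → Finset G) (c : Coef S → ℂ) :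
    Matrix (Fin m) (Fin n) (G →₀ ℂ) :=
  fun i j => ∑ g : {g : G // g ∈ S i j}, Finsupp.single g.1 (c ⟨i, j, g⟩)

/-- `G` satisfies the Atiyah conjecture with coefficients in `K` -/
def Atiyah (K : Subfield ℂ) (G : Type) [Group G] [DecidableEq G] : Prop :=
  ∀ (m n : ℕ) (A : Matrix (Fin m) (Fin n) (G →₀ ℂ)), (∀ i j g, A i j g ∈ K) →
    ∃ z : ℤ, kerDim A = z

/-- the matrix with the coefficients `σ (A i j g)` -/
noncomputable def conjugate {G : Type} {m n : ℕ} (σ : ℂ ≃+* ℂ)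
    (A : Matrix (Fin m) (Fin n) (G →₀ ℂ)) : Matrix (Fin m) (Fin n) (G →₀ ℂ) :=
  fun i j => (A i j).mapRange σ (map_zero σ)

/-- the matrix as a matrix over the real group ring -/
noncomputable def realM {G : Type} {n : ℕ} (A : Matrix (Fin n) (Fin n) (G →₀ ℤ)) :
    Matrix (Fin n) (Fin n) (MonoidAlgebra ℝ G) :=
  fun i j => ∑ g ∈ (A i j).support, MonoidAlgebra.single g (A i j g : ℝ)

/-- the adjoint `A^*` of a matrix over `ℤ G` -/
noncomputable def adjR {G : Type} [Group G] {n : ℕ} (A : Matrix (Fin n) (Fin n) (G →₀ ℤ)) :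
    Matrix (Fin n) (Fin n) (MonoidAlgebra ℝ G) :=
  fun i j => ∑ g ∈ (A j i).support, MonoidAlgebra.single g⁻¹ (A j i g : ℝ)

/-- the trace of `(1 - C⁻¹ A A^*) ^ k` -/
noncomputable def moment {G : Type} [Group G] {n : ℕ} (A : Matrix (Fin n) (Fin n) (G →₀ ℤ)) (C : ℝ)
    (k : ℕ) : ℝ :=
  (((1 - C⁻¹ • (realM A * adjR A)) ^ k).trace).coeff 1

/-- the matrix as a matrix over `ℂ G` -/
noncomputable def complexM {G : Type} {n : ℕ} (A : Matrix (Fin n) (Fin n) (G →₀ ℤ)) :
    Matrix (Fin n) (Fin n) (G →₀ ℂ) :=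
  fun i j => (A i j).mapRange (Int.cast : ℤ → ℂ) Int.cast_zero

/-- the determinant conjecture for `G`: the Fuglede-Kadison determinant of `r_A`, without its kernel, is
at least `1` for all square matrices `A` over `ℤ G`. For `C ≥ ‖r_A‖²` the number
`(n - dim ker) log C - ∑_(k ≥ 1) (tr (1 - C⁻¹ A A^*) ^ k - dim ker) / k` is twice the logarithm of this
determinant, and all terms of the sum are `≥ 0` (Lück); if `C = 0`, then `A = 0` and both sides are `0` -/
def Determinant (G : Type) [Group G] [DecidableEq G] : Prop :=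
  ∀ (n : ℕ) (A : Matrix (Fin n) (Fin n) (G →₀ ℤ)) (C : ℝ),
    (∑ i, ∑ j, ∑ g ∈ (A i j).support, |(A i j g : ℝ)|) ^ 2 ≤ C → ∀ K : ℕ,
      ∑ k ∈ Finset.range K, (moment A C (k + 1) - kerDim (complexM A)) / ((k : ℝ) + 1) ≤
        ((n : ℝ) - kerDim (complexM A)) * Real.log C

theorem kerDim_eq_nd {G : Type} [Group G] [DecidableEq G] {m n : ℕ}
    (A : Matrix (Fin m) (Fin n) (G →₀ ℂ)) :
    kerDim A = Pool.Agent.H84.At.nd (Pool.Agent.H84.At.ker A) :=
  Pool.Agent.H84.At.kerDim_eq A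

theorem closed {G : Type} [Group G] [DecidableEq G] {m n N : ℕ}
    (A : Matrix (Fin m) (Fin n) (G →₀ MvPolynomial (Fin N) ℂ)) (r : ℝ) :
    ∃ P : Set (MvPolynomial (Fin N) ℂ), {c | r ≤ kerDim (value A c)} = zeros P := by
  obtain ⟨P, hP⟩ := Pool.Agent.H78.ZC.poly_closed A r
  refine ⟨P, ?_⟩
  rw [zeros, ← hP]
  ext c
  show r ≤ kerDim (value A c) ↔ _
  rw [kerDim_eq_nd]
  rfl

theorem low {G : Type} [Group G] [DecidableEq G] {m n : ℕ} (S : Fin m → Fin n → Finset G)
    (B : Matrix (Fin m) (Fin n) (G →₀ ℂ)) (hB : SupportedIn S B) : (defect S : ℝ) ≤ kerDim B := by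
  obtain ⟨X, -, hX⟩ := Finset.exists_mem_eq_sup (Finset.univ : Finset (Finset (Fin m)))
    Finset.univ_nonempty (fun X : Finset (Fin m) => X.card - (cols S X).card)
  have h1 : defect S = X.card - (cols S X).card := hX
  rw [kerDim_eq_nd]
  rcases le_total (cols S X).card X.card with h2 | h2
  · have h3 := Pool.Agent.H78.GA.low B X (cols S X) (by
      intro i hi j hj
      ext g
      by_contra hne
      apply hj
      rw [cols, Finset.mem_biUnion]
      exact ⟨i, hi, Finset.mem_filter.2 ⟨Finset.mem_univ _, ⟨g, hB i j g hne⟩⟩⟩)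
    rw [h1, Nat.cast_sub h2]
    exact h3
  · have h3 : defect S = 0 := by rw [h1]; omega
    rw [h3, Nat.cast_zero]
    exact Pool.Agent.H84.At.nd_nonneg _

/-- the monomial matrix of a maximal matching -/
theorem exists_mono {G : Type} [Group G] [DecidableEq G] {m n : ℕ}
    (S : Fin m → Fin n → Finset G) :
    ∃ D : Matrix (Fin m) (Fin n) (G →₀ ℂ), SupportedIn S D ∧ kerDim D ≤ defect S := by
  obtain ⟨k, I, f, hk, hf, hN, hle, X, hX⟩ := Pool.Agent.H78.GA.hall
    (fun i => Finset.univ.filter fun j => (S i j).Nonempty)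
  have hg : ∀ i : {i // i ∈ I}, ∃ g : G, g ∈ S i.1 (f i) := fun i =>
    (Finset.mem_filter.1 (hN i)).2
  choose g hg using hg
  have hkd : k ≤ defect S := by
    have h2 : (cols S X).card = (X.biUnion fun i =>
      Finset.univ.filter fun j => (S i j).Nonempty).card := by
      rw [cols]
    have h3 : X.card - (cols S X).card ≤ defect S :=
      Finset.le_sup (f := fun X : Finset (Fin m) => X.card - (cols S X).card)
        (Finset.mem_univ X)
    omega
  have hsupp : SupportedIn S (Pool.Agent.H78.GA.mono I f g) := by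
    intro i j x hx
    unfold Pool.Agent.H78.GA.mono at hx
    split_ifs at hx with h1 h2
    · by_cases h3 : g ⟨i, h1⟩ = x
      · rw [← h3, ← h2]; exact hg ⟨i, h1⟩
      · exact absurd (Finsupp.single_eq_of_ne (Ne.symm h3)) hx
    · exact absurd rfl hx
    · exact absurd rfl hx
  refine ⟨Pool.Agent.H78.GA.mono I f g, hsupp, ?_⟩
  rw [kerDim_eq_nd]
  refine (Pool.Agent.H78.GA.nd_mono_le I f hf g k hk).trans ?_
  exact_mod_cast hkd

theorem eq_mat {G : Type} {m n : ℕ} (S : Fin m → Fin n → Finset G)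
    (B : Matrix (Fin m) (Fin n) (G →₀ ℂ)) (hB : SupportedIn S B) :
    B = mat S fun p => B p.1 p.2.1 p.2.2.1 := by
  classical
  ext i j x
  unfold mat
  rw [Finsupp.finsetSum_apply]
  by_cases hx : x ∈ S i j
  · rw [Finset.sum_eq_single (⟨x, hx⟩ : {g : G // g ∈ S i j})]
    · simp
    · intro b _ hb
      refine Finsupp.single_eq_of_ne ?_
      rintro rfl
      exact hb rfl
    · intro h; exact absurd (Finset.mem_univ _) h
  · have h1 : B i j x = 0 := by
      by_contra h; exact hx (hB i j x h)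
    rw [h1]
    symm
    refine Finset.sum_eq_zero fun g _ => Finsupp.single_eq_of_ne ?_
    rintro rfl
    exact hx g.2

/-- the index set of the patterns -/
abbrev Pat (G : Type) : Type := (m : ℕ) × (n : ℕ) × (Fin m → Fin n → Finset G)

theorem mat_closed {G : Type} [Group G] [DecidableEq G] {m n : ℕ} (S : Fin m → Fin n → Finset G)
    (r : ℝ) : ∃ P : Set (MvPolynomial (Coef S) ℂ),
      {c | r ≤ kerDim (mat S c)} = {c | ∀ f ∈ P, eval c f = 0} := by
  classical
  set e : Coef S ≃ Fin (Fintype.card (Coef S)) := Fintype.equivFin (Coef S) with he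
  set A : Matrix (Fin m) (Fin n) (G →₀ MvPolynomial (Fin (Fintype.card (Coef S))) ℂ) :=
    fun i j => ∑ g : {g : G // g ∈ S i j}, Finsupp.single g.1 (X (e ⟨i, j, g⟩)) with hA
  have hval : ∀ c : Coef S → ℂ, value A (c ∘ e.symm) = mat S c := by
    intro c
    ext i j x
    rw [hA]
    unfold value mat
    simp only [Finsupp.mapRange_apply]
    rw [Finsupp.finsetSum_apply, Finsupp.finsetSum_apply, map_sum]
    refine Finset.sum_congr rfl fun g _ => ?_
    by_cases hx : g.1 = x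
    · subst hx
      rw [Finsupp.single_eq_same, Finsupp.single_eq_same, eval_X, Function.comp_apply,
        Equiv.symm_apply_apply]
    · rw [Finsupp.single_eq_of_ne (Ne.symm hx), Finsupp.single_eq_of_ne (Ne.symm hx), map_zero]
  obtain ⟨P, hP⟩ := closed A r
  refine ⟨(rename e.symm) '' P, ?_⟩
  ext c
  have h1 : r ≤ kerDim (mat S c) ↔ c ∘ e.symm ∈ zeros P := by
    rw [← hP, Set.mem_setOf_eq, hval c]
  rw [Set.mem_setOf_eq, h1]
  constructor
  · rintro h _ ⟨f, hf, rfl⟩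
    rw [eval_rename]
    exact h f hf
  · intro h f hf
    have := h _ ⟨f, hf, rfl⟩
    rwa [eval_rename] at this

/-- the pattern of the nonzero coefficients -/
noncomputable def supp {G : Type} {m n : ℕ} {R : Type} [Zero R]
    (A : Matrix (Fin m) (Fin n) (G →₀ R)) : Fin m → Fin n → Finset G := fun i j => (A i j).support

theorem eq_mat_supp {G : Type} {m n : ℕ} (A : Matrix (Fin m) (Fin n) (G →₀ ℂ)) :
    A = mat (supp A) fun p => A p.1 p.2.1 p.2.2.1 :=
  eq_mat _ A fun i j g h => Finsupp.mem_support_iff.2 h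

theorem value_eq_mat {G : Type} {m n N : ℕ}
    (A : Matrix (Fin m) (Fin n) (G →₀ MvPolynomial (Fin N) ℂ)) (c : Fin N → ℂ) :
    value A c = mat (supp A) fun p => eval c (A p.1 p.2.1 p.2.2.1) := by
  refine eq_mat (supp A) (value A c) fun i j g h => ?_
  refine Finsupp.mem_support_iff.2 fun h0 => h ?_
  show eval c (A i j g) = 0
  rw [h0, map_zero]

theorem conjugate_mat {G : Type} {m n : ℕ} (σ : ℂ ≃+* ℂ) (S : Fin m → Fin n → Finset G)
    (c : Coef S → ℂ) : conjugate σ (mat S c) = mat S fun p => σ (c p) := by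
  classical
  ext i j x
  unfold conjugate mat
  rw [Finsupp.mapRange_apply, Finsupp.finsetSum_apply, Finsupp.finsetSum_apply, map_sum]
  refine Finset.sum_congr rfl fun g _ => ?_
  by_cases hx : g.1 = x
  · subst hx
    rw [Finsupp.single_eq_same, Finsupp.single_eq_same]
  · rw [Finsupp.single_eq_of_ne (Ne.symm hx), Finsupp.single_eq_of_ne (Ne.symm hx), map_zero]

theorem mat_add' {G : Type} {m n : ℕ} (S : Fin m → Fin n → Finset G) (c d : Coef S → ℂ) :
    mat S (c + d) = mat S c + mat S d := Pool.Agent.H78.GA.mat_add S c d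

theorem mat_smul' {G : Type} {m n : ℕ} (S : Fin m → Fin n → Finset G) (t : ℂ) (c : Coef S → ℂ) :
    mat S (t • c) = t • mat S c := Pool.Agent.H78.GA.mat_smul S t c

theorem pattern {G : Type} [Group G] [DecidableEq G] {m n : ℕ} (S : Fin m → Fin n → Finset G)
    (B : Matrix (Fin m) (Fin n) (G →₀ ℂ)) (ε : ℝ) (d : ℕ)
    (hd : (Fintype.card (Coef S) : ℝ) * (m - defect S) < ε * (Fintype.card (Coef S) + d)) :
    ∃ f : MvPolynomial (Coef S) ℂ, f ≠ 0 ∧ f.totalDegree ≤ d ∧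
      ∀ c, defect S + ε ≤ kerDim (B + mat S c) → eval c f = 0 := by
  classical
  set N := Fintype.card (Coef S) with hN
  set e : Coef S ≃ Fin N := Fintype.equivFin (Coef S) with he
  obtain ⟨D, hD, hk⟩ := exists_mono S
  rw [kerDim_eq_nd] at hk
  -- the family
  have hmat : ∀ c : Coef S → ℂ, mat S c = ∑ j : Fin N, c (e.symm j) • mat S (Pi.single (e.symm j) 1) := by
    intro c
    have h1 : c = ∑ j : Fin N, c (e.symm j) • (Pi.single (e.symm j) 1 : Coef S → ℂ) := by
      funext p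
      rw [Finset.sum_apply, Finset.sum_eq_single (e p)]
      · simp
      · intro b _ hb
        have : p ≠ e.symm b := by
          rintro rfl
          simp at hb
        simp [this]
      · intro h; exact absurd (Finset.mem_univ _) h
    have hlin : ∀ (s : Finset (Fin N)), mat S (∑ j ∈ s, c (e.symm j) •
        (Pi.single (e.symm j) 1 : Coef S → ℂ)) =
        ∑ j ∈ s, c (e.symm j) • mat S (Pi.single (e.symm j) 1) := by
      intro s
      induction s using Finset.induction_on with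
      | empty =>
        simp only [Finset.sum_empty]
        ext i j x
        simp [mat]
      | insert a s ha ih =>
        rw [Finset.sum_insert ha, Finset.sum_insert ha, mat_add', mat_smul', ih]
    conv_lhs => rw [h1]
    exact hlin _
  have hop : ∀ c : Coef S → ℂ, Pool.Agent.H84.At.rm (B + mat S c) =
      Pool.Agent.H84.At.rm B + ∑ j : Fin N, (c ∘ e.symm) j •
        Pool.Agent.H84.At.rm (mat S (Pi.single (e.symm j) 1)) := by
    intro c
    rw [Pool.Agent.H78.GA.rm_add, hmat c]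
    congr 1
    have hlin : ∀ (s : Finset (Fin N)), Pool.Agent.H84.At.rm (∑ j ∈ s, c (e.symm j) •
        mat S (Pi.single (e.symm j) 1)) =
        ∑ j ∈ s, c (e.symm j) • Pool.Agent.H84.At.rm (mat S (Pi.single (e.symm j) 1)) := by
      intro s
      induction s using Finset.induction_on with
      | empty =>
        simp only [Finset.sum_empty]
        ext1 u
        exact Pool.Agent.H84.At.rm_zero u
      | insert a s ha ih =>
        rw [Finset.sum_insert ha, Finset.sum_insert ha, Pool.Agent.H78.GA.rm_add,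
          Pool.Agent.H78.GA.rm_smul, ih]
    exact hlin _
  have hρ := Pool.Agent.H78.ZC.rankLike (Pool.Agent.H84.At.rm B) (Pool.Agent.H84.At.equi_rm B)
    (fun j : Fin N => Pool.Agent.H84.At.rm (mat S (Pi.single (e.symm j) 1)))
    (fun j => Pool.Agent.H84.At.equi_rm _)
  -- a good point
  obtain ⟨t, ht⟩ : ∃ t : ℂ, Pool.Agent.H84.At.nd (Pool.Agent.H84.At.ker (B + t • D)) ≤ defect S := by
    have h1 := Pool.Agent.H78.GA.line_top (Pool.Agent.H84.At.rm B) (Pool.Agent.H84.At.rm D)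
      (Pool.Agent.H84.At.equi_rm B) (Pool.Agent.H84.At.equi_rm D)
    obtain ⟨t, ht⟩ := (h1.dense_compl ℂ).nonempty
    refine ⟨t, ?_⟩
    have h2 : ¬ (Pool.Agent.H84.At.nd (LinearMap.ker (Pool.Agent.H84.At.rm D).toLinearMap) <
      Pool.Agent.H84.At.nd (LinearMap.ker
        (Pool.Agent.H84.At.rm B + t • Pool.Agent.H84.At.rm D).toLinearMap)) := ht
    rw [← Pool.Agent.H78.GA.rm_smul, ← Pool.Agent.H78.GA.rm_add] at h2
    exact (not_lt.1 h2).trans hk
  have hDm := eq_mat S D hD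
  set c₀ : Coef S → ℂ := t • (fun p => D p.1 p.2.1 p.2.2.1) with hc₀
  have hc₀' : mat S c₀ = t • D := by
    rw [hc₀, mat_smul', ← hDm]
  obtain ⟨f, hf0, hfd, hf⟩ := Pool.Agent.H78.ZC.hyper _ hρ (c₀ ∘ e.symm)
    ((m : ℝ) - defect S - ε) d (by
      have h3 : ((m : ℝ) - defect S) ≤ (Fintype.card (Fin m) : ℝ) - Pool.Agent.H84.At.nd
          (LinearMap.ker (Pool.Agent.H84.At.rm B + ∑ j : Fin N, (c₀ ∘ e.symm) j •
            Pool.Agent.H84.At.rm (mat S (Pi.single (e.symm j) 1))).toLinearMap) := by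
        rw [← hop c₀, hc₀', Fintype.card_fin]
        have : Pool.Agent.H84.At.nd (LinearMap.ker
            (Pool.Agent.H84.At.rm (B + t • D)).toLinearMap) ≤ defect S := ht
        linarith
      have h4 : ((m : ℝ) - defect S) * d ≤ _ * d := mul_le_mul_of_nonneg_right h3 (Nat.cast_nonneg d)
      refine lt_of_lt_of_le ?_ h4
      nlinarith)
  refine ⟨rename e.symm f, ?_, ?_, fun c hc => ?_⟩
  · intro h
    apply hf0
    exact rename_injective _ e.symm.injective (by rw [h, map_zero])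
  · exact (totalDegree_rename_le _ _).trans hfd
  · rw [eval_rename]
    apply hf
    show (Fintype.card (Fin m) : ℝ) - _ ≤ _
    rw [← hop c, Fintype.card_fin]
    rw [kerDim_eq_nd] at hc
    have : (defect S : ℝ) + ε ≤ Pool.Agent.H84.At.nd (LinearMap.ker
      (Pool.Agent.H84.At.rm (B + mat S c)).toLinearMap) := hc
    linarith

theorem supportedIn_mat {G : Type} {m n : ℕ} (S : Fin m → Fin n → Finset G) (c : Coef S → ℂ) :
    SupportedIn S (mat S c) := by
  classical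
  intro i j g hg
  by_contra hcon
  apply hg
  unfold mat
  rw [Finsupp.finsetSum_apply]
  refine Finset.sum_eq_zero fun x _ => Finsupp.single_eq_of_ne ?_
  rintro rfl
  exact hcon x.2

theorem exists_near {G : Type} [Group G] [DecidableEq G] {m n : ℕ}
    (S : Fin m → Fin n → Finset G) (ε : ℝ) (hε : 0 < ε) :
    ∃ c : Coef S → ℂ, kerDim (mat S c) < defect S + ε := by
  classical
  obtain ⟨d, hd⟩ := exists_nat_gt ((Fintype.card (Coef S) : ℝ) * (m - defect S) / ε)
  obtain ⟨f, hf0, -, hf⟩ := pattern S 0 ε d (by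
    rw [div_lt_iff₀ hε] at hd
    have h1 : (0 : ℝ) ≤ ε * Fintype.card (Coef S) := by positivity
    nlinarith)
  by_contra hcon
  push Not at hcon
  apply hf0
  refine MvPolynomial.funext fun c => ?_
  rw [map_zero]
  exact hf c (by rw [zero_add]; exact hcon c)

theorem field_of_definition {G : Type} [Group G] [DecidableEq G] :
    ∃ k : Subfield ℂ, (Countable G → Countable k) ∧ (∀ z ∈ k, (starRingEnd ℂ) z = z) ∧
      (∀ σ : ℂ ≃+* ℂ, (∀ (m n : ℕ) (A : Matrix (Fin m) (Fin n) (G →₀ ℂ)),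
        kerDim (conjugate σ A) = kerDim A) ↔ ∀ z ∈ k, σ z = z) ∧
      (∀ K : Subfield ℂ, k ≤ K → ∀ (m n N : ℕ)
        (A : Matrix (Fin m) (Fin n) (G →₀ MvPolynomial (Fin N) ℂ)),
        (∀ i j g s, coeff s (A i j g) ∈ K) →
        (∀ r : ℝ, ∃ P : Set (MvPolynomial (Fin N) ℂ), (∀ f ∈ P, ∀ s, coeff s f ∈ K) ∧
          {c | r ≤ kerDim (value A c)} = zeros P) ∧
        ∀ c : Fin N → ℂ, AlgebraicIndependent K c → ∀ c',
          kerDim (value A c) ≤ kerDim (value A c')) ∧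
      (∀ (m n : ℕ) (A : Matrix (Fin m) (Fin n) (G →₀ ℂ)) (ε : ℝ), 0 < ε →
        ∃ B : Matrix (Fin m) (Fin n) (G →₀ ℂ), (∀ i j g, IsAlgebraic k (B i j g)) ∧
          (∀ i j g, A i j g = 0 → B i j g = 0) ∧ kerDim A ≤ kerDim B ∧ kerDim B < kerDim A + ε) ∧
      ((∀ (m n : ℕ) (B : Matrix (Fin m) (Fin n) (G →₀ ℂ)), (∀ i j g, IsAlgebraic k (B i j g)) →
          ∃ z : ℤ, kerDim B = z) →
        ∀ (m n : ℕ) (A : Matrix (Fin m) (Fin n) (G →₀ ℂ)), ∃ z : ℤ, kerDim A = z) ∧
      (∀ (m n : ℕ) (S : Fin m → Fin n → Finset G) (c : Coef S → ℂ), AlgebraicIndependent k c →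
        kerDim (mat S c) = defect S) ∧
      ∀ K : Subfield ℂ, k ≤ K → ∀ (m n : ℕ) (S : Fin m → Fin n → Finset G) (r : ℝ),
        ∃ P : Set (MvPolynomial (Coef S) ℂ), (∀ f ∈ P, ∀ s, coeff s f ∈ K) ∧
          {c | r ≤ kerDim (mat S c)} = {c | ∀ f ∈ P, eval c f = 0} := by
  classical
  obtain ⟨k, hk1, hk2, hk3⟩ := Pool.Agent.H78.ZC.fd_main (J := Pat G)
    (fun p => Coef p.2.2) (fun p c => kerDim (mat p.2.2 c)) (fun p r => mat_closed p.2.2 r)
  have happ : ∀ (m n : ℕ) (A : Matrix (Fin m) (Fin n) (G →₀ ℂ)) (ε : ℝ), 0 < ε →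
        ∃ B : Matrix (Fin m) (Fin n) (G →₀ ℂ), (∀ i j g, IsAlgebraic k (B i j g)) ∧
          (∀ i j g, A i j g = 0 → B i j g = 0) ∧ kerDim A ≤ kerDim B ∧
            kerDim B < kerDim A + ε := by
    intro m n A ε hε
    obtain ⟨c', h1, h2, h3⟩ := Pool.Agent.H78.ZC.fd_approx
      (fun c => kerDim (mat (supp A) c)) k (fun r => hk2 k le_rfl ⟨m, n, supp A⟩ r)
      (fun p => A p.1 p.2.1 p.2.2.1) ε hε
    rw [← eq_mat_supp A] at h2 h3
    refine ⟨mat (supp A) c', fun i j g => ?_, fun i j g h => ?_, h2, h3⟩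
    · unfold mat
      rw [Finsupp.finsetSum_apply]
      refine isAlgebraic_iff_isIntegral.2 (Subalgebra.sum_mem (integralClosure k ℂ) fun x _ => ?_)
      rw [Finsupp.single_apply]
      split_ifs
      · exact isAlgebraic_iff_isIntegral.1 (h1 _)
      · exact Subalgebra.zero_mem _
    · unfold mat
      rw [Finsupp.finsetSum_apply]
      refine Finset.sum_eq_zero fun x _ => Finsupp.single_eq_of_ne ?_
      rintro rfl
      exact (Finsupp.mem_support_iff.1 x.2) h
  refine ⟨k, ?_, ?_, ?_, ?_, happ, ?_, ?_, fun K hK m n S r => hk2 K hK ⟨m, n, S⟩ r⟩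
  · intro hG
    exact hk1 inferInstance
  · have h1 := (hk3 (starRingAut : ℂ ≃+* ℂ)).1 (by
      intro p c
      show kerDim (mat p.2.2 fun i => (starRingAut : ℂ ≃+* ℂ) (c i)) = kerDim (mat p.2.2 c)
      rw [← conjugate_mat, kerDim_eq_nd, kerDim_eq_nd, ← Pool.Agent.H78.ZC.nd_conj (mat p.2.2 c)]
      rfl)
    intro z hz
    exact h1 z hz
  · intro σ
    rw [← hk3 σ]
    constructor
    · intro h p c
      show kerDim (mat p.2.2 fun i => σ (c i)) = kerDim (mat p.2.2 c)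
      rw [← conjugate_mat]
      exact h _ _ _
    · intro h m n A
      have h1 := h ⟨m, n, supp A⟩ (fun p => A p.1 p.2.1 p.2.2.1)
      have h2 : kerDim (mat (supp A) fun p => σ (A p.1 p.2.1 p.2.2.1)) =
        kerDim (mat (supp A) fun p => A p.1 p.2.1 p.2.2.1) := h1
      rw [← conjugate_mat, ← eq_mat_supp A] at h2
      exact h2
  · intro K hK m n N A hA
    have hdef : ∀ r : ℝ, ∃ P : Set (MvPolynomial (Fin N) ℂ), (∀ f ∈ P, ∀ s, coeff s f ∈ K) ∧
        {c | r ≤ kerDim (value A c)} = zeros P := by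
      intro r
      obtain ⟨Q, hQ1, hQ2⟩ := hk2 K hK ⟨m, n, supp A⟩ r
      obtain ⟨Q', h1, h2⟩ := Pool.Agent.H78.ZC.fd_comp K Q hQ1
        (fun p => A p.1 p.2.1 p.2.2.1) (fun p s => hA _ _ _ s)
      refine ⟨Q', h1, ?_⟩
      ext c
      have h3 : r ≤ kerDim (mat (supp A) fun p => eval c (A p.1 p.2.1 p.2.2.1)) ↔
          ∀ f ∈ Q, eval (fun p => eval c (A p.1 p.2.1 p.2.2.1)) f = 0 := by
        have h4 := congrArg (fun s : Set (Coef (supp A) → ℂ) =>
          (fun p : Coef (supp A) => eval c (A p.1 p.2.1 p.2.2.1)) ∈ s) hQ2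
        exact iff_of_eq h4
      rw [Set.mem_setOf_eq, value_eq_mat]
      exact h3.trans (h2 c)
    exact ⟨hdef, fun c hc c' => Pool.Agent.H78.ZC.fd_generic (fun c => kerDim (value A c)) K
      hdef c hc c'⟩
  · intro hint m n A
    by_contra hcon
    push Not at hcon
    have hlt : kerDim A < (⌈kerDim A⌉ : ℝ) :=
      lt_of_le_of_ne (Int.le_ceil _) (hcon _)
    obtain ⟨B, h1, _, h2, h3⟩ := happ m n A _ (sub_pos.2 hlt)
    obtain ⟨z, hz⟩ := hint m n B h1
    rw [hz] at h2 h3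
    have h4 : ⌈kerDim A⌉ ≤ z := Int.ceil_le.2 h2
    have h5 : (⌈kerDim A⌉ : ℝ) ≤ z := by exact_mod_cast h4
    linarith
  · intro m n S c hc
    refine le_antisymm (le_of_forall_pos_lt_add fun ε hε => ?_) (low S _ (supportedIn_mat S c))
    obtain ⟨c', hc'⟩ := exists_near S ε hε
    exact lt_of_le_of_lt (Pool.Agent.H78.ZC.fd_generic (fun c => kerDim (mat S c)) k
      (fun r => hk2 k le_rfl ⟨m, n, S⟩ r) c hc c') hc'

theorem ai_iff {K : Subfield ℂ} {G : Type} [Group G] [DecidableEq G] :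
    Atiyah K G ↔ Pool.Agent.H84.At.AB.AI K G := by
  constructor
  · intro h ι κ _ _ A hA
    obtain ⟨z, hz⟩ := h (Fintype.card ι) (Fintype.card κ)
      (A.submatrix (Fintype.equivFin ι).symm (Fintype.equivFin κ).symm)
      (fun i j g => hA _ _ g)
    rw [kerDim_eq_nd, Pool.Agent.H84.At.nd_ker_submatrix] at hz
    have h0 : 0 ≤ z := by
      have := Pool.Agent.H84.At.nd_nonneg (Pool.Agent.H84.At.ker A)
      rw [hz] at this
      exact_mod_cast this
    refine ⟨z.toNat, ?_⟩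
    rw [hz]
    have : ((z.toNat : ℤ) : ℝ) = (z : ℝ) := by rw [Int.toNat_of_nonneg h0]
    exact_mod_cast this.symm
  · intro h m n A hA
    obtain ⟨k, hk⟩ := h (Fin m) (Fin n) A hA
    exact ⟨k, by rw [kerDim_eq_nd, hk]; simp⟩

theorem nd_mp {G H : Type} [Group G] [Group H] (φ : G →* H) (hφ : Function.Injective φ) {m n : ℕ}
    (A : Matrix (Fin m) (Fin n) (G →₀ ℂ)) :
    Pool.Agent.H84.At.nd (Pool.Agent.H84.At.ker (Pool.Agent.H84.At.mp φ A)) =
      Pool.Agent.H84.At.nd (Pool.Agent.H84.At.ker A) := by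
  rw [Pool.Agent.H84.At.ker_mp φ hφ A, Pool.Agent.H84.At.nd_ind φ hφ
    (Pool.Agent.H84.At.isClosed_kerA A) (Pool.Agent.H84.At.inv_kerA A)]

theorem conj_mp {G H : Type} [Group G] [Group H] (φ : G →* H) {m n : ℕ} (σ : ℂ ≃+* ℂ)
    (A : Matrix (Fin m) (Fin n) (G →₀ ℂ)) :
    (fun i j => (Pool.Agent.H84.At.mp φ A i j).mapRange σ (map_zero σ)) =
      Pool.Agent.H84.At.mp φ (conjugate σ A) := by
  funext i j
  show ((A i j).mapDomain φ).mapRange σ (map_zero σ) = ((A i j).mapRange σ (map_zero σ)).mapDomain φ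
  exact (Finsupp.mapDomain_mapRange φ (A i j) σ (map_zero σ) (map_add σ)).symm

theorem icc_part {G : Type} [Group G] [DecidableEq G] (k : Subfield ℂ)
    (hk : ∀ σ : ℂ ≃+* ℂ, (∀ (m n : ℕ) (A : Matrix (Fin m) (Fin n) (G →₀ ℂ)),
        kerDim (conjugate σ A) = kerDim A) ↔ ∀ z ∈ k, σ z = z)
    (H : Type) [Group H] [DecidableEq H] (φ : G →* H) (hφ : Function.Injective φ)
    (hH : ∀ g : H, g ≠ 1 → {x | ∃ h : H, x = h * g * h⁻¹}.Infinite) (K : Subfield ℂ)
    (hK : Atiyah K H) :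
    (∃ L : Subfield ℂ, K ≤ L ∧ k ≤ L ∧ (∀ z : ℂ, IsAlgebraic L z) ∧ Atiyah L G) ∧
      ∀ (m n : ℕ) (A : Matrix (Fin m) (Fin n) (G →₀ ℂ)), ∃ q : ℚ, kerDim A = q := by
  obtain ⟨L, hKL, hL, halg, hrat⟩ := Pool.Agent.H78.ZB.icc_main hH K (ai_iff.1 hK)
  have key : ∀ (m n : ℕ) (A : Matrix (Fin m) (Fin n) (G →₀ ℂ)), ∃ e q : ℕ, 0 < e ∧
      ∀ σ : ℂ ≃+* ℂ, (∀ z ∈ L, σ z = z) →
        (e : ℝ) * ((m : ℝ) - Pool.Agent.H84.At.nd (Pool.Agent.H84.At.ker (conjugate σ A))) = q := by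
    intro m n A
    obtain ⟨e, q, he, h⟩ := hrat (Fin m) (Fin n) (Pool.Agent.H84.At.mp φ A)
    refine ⟨e, q, he, fun σ hσ => ?_⟩
    have h1 := h σ hσ
    rw [Fintype.card_fin, conj_mp, nd_mp φ hφ] at h1
    exact h1
  have hid : ∀ (m n : ℕ) (A : Matrix (Fin m) (Fin n) (G →₀ ℂ)),
      conjugate (RingEquiv.refl ℂ) A = A := by
    intro m n A
    ext i j g
    rfl
  refine ⟨⟨L, hKL, fun z hz => ?_, halg, ai_iff.2 (Pool.Agent.H84.At.AB.ai_of_inj φ hφ hL)⟩,
    fun m n A => ?_⟩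
  · refine Pool.Agent.H78.ZB.mem_of_fixed L halg z fun σ hσ => ?_
    refine (hk σ).1 (fun m n A => ?_) z hz
    obtain ⟨e, q, he, h⟩ := key m n A
    have h1 := h σ hσ
    have h2 := h (RingEquiv.refl ℂ) (fun _ _ => rfl)
    rw [hid] at h2
    have he' : (e : ℝ) ≠ 0 := by exact_mod_cast he.ne'
    have h3 := mul_left_cancel₀ he' (h1.trans h2.symm)
    rw [kerDim_eq_nd, kerDim_eq_nd]
    linarith
  · obtain ⟨e, q, he, h⟩ := key m n A
    have h2 := h (RingEquiv.refl ℂ) (fun _ _ => rfl)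
    rw [hid] at h2
    have he' : (e : ℝ) ≠ 0 := by exact_mod_cast he.ne'
    refine ⟨(m : ℚ) - (q : ℚ) / (e : ℚ), ?_⟩
    rw [kerDim_eq_nd]
    push_cast
    field_simp
    linarith

theorem kerDim_smul {G : Type} [Group G] [DecidableEq G] {m n : ℕ} (c : ℂ) (hc : c ≠ 0)
    (A : Matrix (Fin m) (Fin n) (G →₀ ℂ)) : kerDim (c • A) = kerDim A := by
  rw [kerDim_eq_nd, kerDim_eq_nd]
  congr 1
  ext u
  show Pool.Agent.H84.At.rm (c • A) u = 0 ↔ Pool.Agent.H84.At.rm A u = 0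
  rw [Pool.Agent.H78.GA.rm_smul]
  show c • Pool.Agent.H84.At.rm A u = 0 ↔ _
  rw [smul_eq_zero]
  exact ⟨fun h => h.resolve_left hc, Or.inr⟩

theorem exists_point {N : ℕ} (K : Subfield ℂ) (f : MvPolynomial (Fin N) ℂ) (hf : f ≠ 0) :
    ∃ c : Fin N → ℂ, (∀ i, c i ∈ K) ∧ eval c f ≠ 0 := by
  haveI : Infinite K := Infinite.of_injective (fun n : ℕ => (n : K)) Nat.cast_injective
  have hinf : ∀ i : Fin N, (K : Set ℂ).Infinite := fun _ => Set.infinite_coe_iff.1 ‹Infinite K›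
  by_contra hcon
  push Not at hcon
  exact hf (MvPolynomial.funext_set (fun _ : Fin N => (K : Set ℂ)) hinf fun c hc => by
    rw [map_zero]
    exact hcon c fun i => hc i (Set.mem_univ i))

theorem eval_mem {N : ℕ} (K : Subfield ℂ) (f : MvPolynomial (Fin N) ℂ)
    (hf : ∀ t, coeff t f ∈ K) (c : Fin N → ℂ) (hc : ∀ i, c i ∈ K) : eval c f ∈ K := by
  rw [MvPolynomial.eval_eq]
  exact K.sum_mem fun t _ => K.mul_mem (hf t) (K.prod_mem fun i _ => K.pow_mem (hc i) _)

theorem gen_base {G : Type} [Group G] [DecidableEq G] (k K : Subfield ℂ)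
    (hk : ∀ (m n N : ℕ) (A : Matrix (Fin m) (Fin n) (G →₀ MvPolynomial (Fin N) ℂ)),
        (∀ i j g s, coeff s (A i j g) ∈ K ⊔ k) →
        ∀ c : Fin N → ℂ, AlgebraicIndependent (K ⊔ k : Subfield ℂ) c → ∀ c',
          kerDim (value A c) ≤ kerDim (value A c'))
    (hK : Atiyah K G) (B : Set ℂ)
    (hB : AlgebraicIndependent (K ⊔ k : Subfield ℂ) ((↑) : B → ℂ)) :
    Atiyah (K ⊔ Subfield.closure B) G := by
  classical
  intro m n A hA
  obtain ⟨N, b, q, p, hb, hq, hp⟩ := Pool.Agent.H78.ZC.common_den K B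
    ((Finset.univ : Finset (Fin m × Fin n)).biUnion fun e => (A e.1 e.2).support.image (A e.1 e.2))
    (by
      intro z hz
      rw [Finset.mem_biUnion] at hz
      obtain ⟨e, -, hz⟩ := hz
      rw [Finset.mem_image] at hz
      obtain ⟨g, -, rfl⟩ := hz
      exact hA e.1 e.2 g)
  have hp' : ∀ i j, ∀ g ∈ (A i j).support, (∀ t, coeff t (p (A i j g)) ∈ K) ∧
      eval (fun i => (b i : ℂ)) (p (A i j g)) = q * A i j g := fun i j g hg =>
    hp _ (Finset.mem_biUnion.2 ⟨(i, j), Finset.mem_univ _, Finset.mem_image_of_mem _ hg⟩)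
  set A' : Matrix (Fin m) (Fin n) (G →₀ MvPolynomial (Fin N) ℂ) :=
    fun i j => Finsupp.onFinset (A i j).support
      (fun g => if A i j g = 0 then 0 else p (A i j g)) (by
        intro g hg
        rw [Finsupp.mem_support_iff]
        intro h0
        exact hg (if_pos h0)) with hA'
  have hA'g : ∀ i j g, A' i j g = if A i j g = 0 then 0 else p (A i j g) := fun _ _ _ => rfl
  have hcoef : ∀ i j g t, coeff t (A' i j g) ∈ K := by
    intro i j g t
    rw [hA'g]
    split_ifs with h0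
    · rw [coeff_zero]; exact K.zero_mem
    · exact (hp' i j g (Finsupp.mem_support_iff.2 h0)).1 t
  have hval : value A' (fun i => (b i : ℂ)) = q • A := by
    ext i j g
    show eval (fun i => (b i : ℂ)) (A' i j g) = q * A i j g
    rw [hA'g]
    split_ifs with h0
    · rw [h0, map_zero, mul_zero]
    · exact (hp' i j g (Finsupp.mem_support_iff.2 h0)).2
  have hmin := hk m n N A' (fun i j g t => (le_sup_left : K ≤ K ⊔ k) (hcoef i j g t))
    (fun i => (b i : ℂ)) (hB.comp b hb)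
  rw [hval, kerDim_smul q hq] at hmin
  refine ⟨⌈kerDim A⌉, ?_⟩
  by_contra hne
  have hlt : kerDim A < (⌈kerDim A⌉ : ℝ) := lt_of_le_of_ne (Int.le_ceil _) hne
  obtain ⟨P, hP⟩ := closed A' (⌈kerDim A⌉ : ℝ)
  have h1 : (fun i => (b i : ℂ)) ∉ zeros P := by
    rw [← hP]
    intro h
    have h2 : (⌈kerDim A⌉ : ℝ) ≤ kerDim (value A' fun i => (b i : ℂ)) := h
    rw [hval, kerDim_smul q hq] at h2
    linarith
  have h3 : ∃ f ∈ P, eval (fun i => (b i : ℂ)) f ≠ 0 := by
    by_contra hcon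
    push Not at hcon
    exact h1 hcon
  obtain ⟨f, hf, hfne⟩ := h3
  obtain ⟨c, hc, hcne⟩ := exists_point K f (by rintro rfl; exact hfne (map_zero _))
  have h4 : kerDim (value A' c) < (⌈kerDim A⌉ : ℝ) := by
    by_contra h
    push Not at h
    have h5 : c ∈ zeros P := by rw [← hP]; exact h
    exact hcne (h5 f hf)
  obtain ⟨z, hz⟩ := hK m n (value A' c) fun i j g => eval_mem K _ (hcoef i j g) c hc
  have h5 := hmin c
  rw [hz] at h4 h5
  have h6 : ⌈kerDim A⌉ ≤ z := Int.ceil_le.2 h5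
  have h7 : (⌈kerDim A⌉ : ℝ) ≤ z := by exact_mod_cast h6
  linarith

theorem detC_of_determinant {G : Type} [Group G] [DecidableEq G] (h : Determinant G) :
    Pool.Agent.H78.ZE.DetC G := by
  refine Pool.Agent.H78.ZE.detC_of fun n A C hC K => ?_
  have h1 := h n A C hC K
  simp only [kerDim_eq_nd] at h1
  exact h1

theorem kerDim_conjugate {G : Type} [Group G] [DecidableEq G] (hG : Pool.Agent.H78.ZE.DetC G)
    (σ : ℂ ≃+* ℂ) {m n : ℕ} (A : Matrix (Fin m) (Fin n) (G →₀ ℂ))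
    (hA : ∀ i j g, IsAlgebraic ℚ (A i j g)) : kerDim (conjugate σ A) = kerDim A := by
  rw [kerDim_eq_nd, kerDim_eq_nd]
  exact Pool.Agent.H78.ZF.galois hG A hA σ

theorem isAlgebraic_symm (σ : ℂ ≃+* ℂ) (z : ℂ) (hz : IsAlgebraic ℚ z) : IsAlgebraic ℚ (σ.symm z) := by
  let e : ℂ →ₐ[ℚ] ℂ := σ.symm.toRingHom.toRatAlgHom
  exact hz.algHom e

theorem le_of_ai {G : Type} [Group G] [DecidableEq G] (k : Subfield ℂ)
    (hk : ∀ σ : ℂ ≃+* ℂ, (∀ (m n : ℕ) (A : Matrix (Fin m) (Fin n) (G →₀ ℂ)),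
        kerDim (conjugate σ A) = kerDim A) ↔ ∀ z ∈ k, σ z = z)
    (hG : Pool.Agent.H78.ZE.DetC G)
    (hA : ∀ (m n : ℕ) (A : Matrix (Fin m) (Fin n) (G →₀ ℂ)), (∀ i j g, IsAlgebraic ℚ (A i j g)) →
      ∃ z : ℤ, kerDim A = z) : k ≤ Pool.Agent.H78.ZE.Abar := by
  have hAI : Pool.Agent.H84.At.AB.AI Pool.Agent.H78.ZE.Abar G :=
    ai_iff.1 fun m n A h => hA m n A fun i j g => Pool.Agent.H78.ZE.mem_Abar.1 (h i j g)
  intro z hz
  rw [Pool.Agent.H78.ZE.mem_Abar]
  by_contra hcon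
  obtain ⟨σ, h1, h2⟩ := Pool.Agent.H78.ZE.exists_moves z hcon
  refine h2 ((hk σ).1 (fun m n A => ?_) z hz)
  rw [kerDim_eq_nd, kerDim_eq_nd]
  exact Pool.Agent.H78.ZE.nd_conj_eq hG hAI σ h1 A

theorem le_of_icc {G : Type} [Group G] [DecidableEq G] (k : Subfield ℂ)
    (hk : ∀ σ : ℂ ≃+* ℂ, (∀ (m n : ℕ) (A : Matrix (Fin m) (Fin n) (G →₀ ℂ)),
        kerDim (conjugate σ A) = kerDim A) ↔ ∀ z ∈ k, σ z = z)
    (hG : Pool.Agent.H78.ZE.DetC G)
    (hI : ∀ g : G, g ≠ 1 → {x | ∃ h : G, x = h * g * h⁻¹}.Infinite) (hA : Atiyah ⊥ G) :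
    k ≤ Pool.Agent.H78.ZE.Abar := by
  intro z hz
  rw [Pool.Agent.H78.ZE.mem_Abar]
  by_contra hcon
  obtain ⟨σ, h1, h2⟩ := Pool.Agent.H78.ZE.exists_moves z hcon
  refine h2 ((hk σ).1 (fun m n A => ?_) z hz)
  rw [kerDim_eq_nd, kerDim_eq_nd]
  exact Pool.Agent.H78.ZE.icc_conj hI ⊥ (ai_iff.1 hA) σ
    (fun w hw => h1 w (Pool.Agent.H78.ZE.sc_alg hG w hw)) A

theorem eq_bot_of_le {G : Type} [Group G] [DecidableEq G] (k : Subfield ℂ)
    (hk : ∀ σ : ℂ ≃+* ℂ, (∀ (m n : ℕ) (A : Matrix (Fin m) (Fin n) (G →₀ ℂ)),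
        kerDim (conjugate σ A) = kerDim A) ↔ ∀ z ∈ k, σ z = z)
    (hdef : ∀ K : Subfield ℂ, k ≤ K → ∀ (m n : ℕ) (S : Fin m → Fin n → Finset G) (r : ℝ),
        ∃ P : Set (MvPolynomial (Coef S) ℂ), (∀ f ∈ P, ∀ s, coeff s f ∈ K) ∧
          {c | r ≤ kerDim (mat S c)} = {c | ∀ f ∈ P, eval c f = 0})
    (hG : Pool.Agent.H78.ZE.DetC G) (halg : k ≤ Pool.Agent.H78.ZE.Abar) : k = ⊥ := by
  classical
  have key : ∀ (σ : ℂ ≃+* ℂ) (m n : ℕ) (A : Matrix (Fin m) (Fin n) (G →₀ ℂ)),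
      kerDim (conjugate σ A) ≤ kerDim A := by
    intro σ m n A
    set S := supp A with hS
    set c : Coef S → ℂ := fun p => A p.1 p.2.1 p.2.2.1 with hc
    have hAc : A = mat S c := eq_mat_supp A
    obtain ⟨P, hP, hPz⟩ := hdef _ halg m n S (kerDim (conjugate σ A))
    by_contra hcon
    have h1 : ¬ (kerDim (conjugate σ A) ≤ kerDim (mat S c)) := by
      rw [← hAc]; exact hcon
    have h2 : c ∉ {c | ∀ f ∈ P, eval c f = 0} := by
      rw [← hPz]; exact h1
    have h3 : ∃ f ∈ P, eval c f ≠ 0 := by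
      by_contra h
      push Not at h
      exact h2 h
    obtain ⟨f, hf, hfc⟩ := h3
    obtain ⟨x, hx, hxf, hxg⟩ := Pool.Agent.H78.ZF.specialise c f
      (fun s => Pool.Agent.H78.ZE.mem_Abar.1 (hP f hf s)) hfc
    have h4 : (fun p => σ (c p)) ∈ {c : Coef S → ℂ | kerDim (conjugate σ A) ≤ kerDim (mat S c)} := by
      show kerDim (conjugate σ A) ≤ kerDim (mat S fun p => σ (c p))
      rw [← conjugate_mat, ← hAc]
    rw [hPz] at h4
    have h5 : (fun p => σ (x p)) ∈ {c : Coef S → ℂ | ∀ f ∈ P, eval c f = 0} := by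
      intro g hg
      have h6 : eval (fun p => σ (c p)) g = 0 := h4 g hg
      have h7 : ∀ y : Coef S → ℂ, eval (fun p => σ (y p)) g =
          σ (eval y (MvPolynomial.map (σ.symm : ℂ →+* ℂ) g)) := by
        intro y
        rw [MvPolynomial.eval_map, MvPolynomial.eval₂_eq, MvPolynomial.eval_eq, map_sum]
        refine Finset.sum_congr rfl fun t _ => ?_
        rw [map_mul, map_prod]
        congr 1
        · exact (σ.apply_symm_apply _).symm
        · refine Finset.prod_congr rfl fun i _ => ?_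
          rw [map_pow]
      have h8 : eval c (MvPolynomial.map (σ.symm : ℂ →+* ℂ) g) = 0 := by
        rw [h7] at h6
        exact σ.injective (by rw [h6, map_zero])
      have h9 := hxg (MvPolynomial.map (σ.symm : ℂ →+* ℂ) g) (fun s => by
        rw [MvPolynomial.coeff_map]
        exact isAlgebraic_symm σ _ (Pool.Agent.H78.ZE.mem_Abar.1 (hP g hg s))) h8
      rw [h7, h9, map_zero]
    rw [← hPz] at h5
    have h10 : kerDim (conjugate σ A) ≤ kerDim (conjugate σ (mat S x)) := by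
      rw [conjugate_mat]
      exact h5
    rw [kerDim_conjugate hG σ (mat S x) (fun i j g => by
      unfold mat
      rw [Finsupp.finsetSum_apply]
      refine isAlgebraic_iff_isIntegral.2 (Subalgebra.sum_mem (integralClosure ℚ ℂ) fun y _ => ?_)
      rw [Finsupp.single_apply]
      split_ifs
      · exact isAlgebraic_iff_isIntegral.1 (hx _)
      · exact Subalgebra.zero_mem _)] at h10
    have h11 : x ∈ {c : Coef S → ℂ | kerDim (conjugate σ A) ≤ kerDim (mat S c)} := h10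
    rw [hPz] at h11
    exact hxf (h11 f hf)
  have hinv : ∀ (σ : ℂ ≃+* ℂ) (m n : ℕ) (A : Matrix (Fin m) (Fin n) (G →₀ ℂ)),
      kerDim (conjugate σ A) = kerDim A := by
    intro σ m n A
    refine le_antisymm (key σ m n A) ?_
    have h1 := key σ.symm m n (conjugate σ A)
    have h2 : conjugate σ.symm (conjugate σ A) = A := by
      ext i j g
      exact σ.symm_apply_apply _
    rwa [h2] at h1
  rw [eq_bot_iff]
  intro z hz
  obtain ⟨q, rfl⟩ := Pool.Agent.H78.ZF.rat_of_fixed z fun σ => (hk σ).1 (hinv σ) z hz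
  exact SubfieldClass.ratCast_mem _ q

theorem eq_bot_of_overgroup {G : Type} [Group G] [DecidableEq G] (k : Subfield ℂ)
    (hk : ∀ σ : ℂ ≃+* ℂ, (∀ (m n : ℕ) (A : Matrix (Fin m) (Fin n) (G →₀ ℂ)),
        kerDim (conjugate σ A) = kerDim A) ↔ ∀ z ∈ k, σ z = z)
    (H : Type) [Group H] [DecidableEq H] (φ : G →* H) (hφ : Function.Injective φ)
    (hH : ∀ g : H, g ≠ 1 → {x | ∃ h : H, x = h * g * h⁻¹}.Infinite)
    (hdet : Pool.Agent.H78.ZE.DetC H) (hA : Atiyah ⊥ H) : k = ⊥ := by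
  obtain ⟨k', -, -, h3, -, -, -, -, h8⟩ := field_of_definition (G := H)
  have hk' := eq_bot_of_le k' h3 h8 hdet (le_of_icc k' h3 hdet hH hA)
  rw [eq_bot_iff]
  intro z hz
  obtain ⟨q, rfl⟩ := Pool.Agent.H78.ZF.rat_of_fixed z fun σ => by
    refine (hk σ).1 (fun m n A => ?_) z hz
    have h1 : ∀ (m n : ℕ) (B : Matrix (Fin m) (Fin n) (H →₀ ℂ)),
        kerDim (conjugate σ B) = kerDim B := by
      refine (h3 σ).2 fun w hw => ?_
      rw [hk'] at hw
      have h2 : (⊥ : Subfield ℂ) ≤ (algebraMap ℚ ℂ).fieldRange := bot_le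
      obtain ⟨q, rfl⟩ := h2 hw
      rw [eq_ratCast, map_ratCast]
    have h4 := h1 m n (Pool.Agent.H84.At.mp φ A)
    rw [kerDim_eq_nd, kerDim_eq_nd, nd_mp φ hφ] at h4
    rw [kerDim_eq_nd, kerDim_eq_nd, ← nd_mp φ hφ (conjugate σ A), ← conj_mp]
    exact h4
  exact SubfieldClass.ratCast_mem _ q

theorem isAlgebraic_of_bot (z : ℂ) (hz : IsAlgebraic (⊥ : Subfield ℂ) z) : IsAlgebraic ℚ z := by
  haveI : Algebra.IsAlgebraic ℚ (⊥ : Subfield ℂ) := by
    refine ⟨fun y => ?_⟩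
    obtain ⟨q, hq⟩ : ∃ q : ℚ, (q : ℂ) = y := by
      have h1 : (⊥ : Subfield ℂ) ≤ (algebraMap ℚ ℂ).fieldRange := bot_le
      obtain ⟨q, hq⟩ := h1 y.2
      exact ⟨q, hq⟩
    have h2 : y = algebraMap ℚ (⊥ : Subfield ℂ) q := Subtype.ext hq.symm
    rw [h2]
    exact isAlgebraic_algebraMap q
  exact hz.restrictScalars ℚ

theorem result :
    ∀ (G : Type) [Group G] [DecidableEq G],
      ∃ k : Subfield ℂ, (Countable G → Countable k) ∧ (∀ z ∈ k, (starRingEnd ℂ) z = z) ∧
        -- (a) polynomial families over a field between `k` and `ℂ`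
        (∀ K : Subfield ℂ, k ≤ K → ∀ (m n N : ℕ)
          (A : Matrix (Fin m) (Fin n) (G →₀ MvPolynomial (Fin N) ℂ)),
          (∀ i j g s, coeff s (A i j g) ∈ K) →
          (∀ r : ℝ, ∃ P : Set (MvPolynomial (Fin N) ℂ), (∀ f ∈ P, ∀ s, coeff s f ∈ K) ∧
            {c | r ≤ kerDim (value A c)} = zeros P) ∧
          ∀ c : Fin N → ℂ, AlgebraicIndependent K c → ∀ c',
            kerDim (value A c) ≤ kerDim (value A c')) ∧
        -- (b) automorphisms of `ℂ`
        (∀ σ : ℂ ≃+* ℂ, (∀ (m n : ℕ) (A : Matrix (Fin m) (Fin n) (G →₀ ℂ)),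
          kerDim (conjugate σ A) = kerDim A) ↔ ∀ z ∈ k, σ z = z) ∧
        -- (c) approximation by matrices with coefficients algebraic over `k`
        (∀ (m n : ℕ) (A : Matrix (Fin m) (Fin n) (G →₀ ℂ)) (ε : ℝ), 0 < ε →
          ∃ B : Matrix (Fin m) (Fin n) (G →₀ ℂ), (∀ i j g, IsAlgebraic k (B i j g)) ∧
            (∀ i j g, A i j g = 0 → B i j g = 0) ∧
            kerDim A ≤ kerDim B ∧ kerDim B < kerDim A + ε) ∧
        ((∀ (m n : ℕ) (B : Matrix (Fin m) (Fin n) (G →₀ ℂ)),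
            (∀ i j g, IsAlgebraic k (B i j g)) → ∃ z : ℤ, kerDim B = z) →
          ∀ (m n : ℕ) (A : Matrix (Fin m) (Fin n) (G →₀ ℂ)), ∃ z : ℤ, kerDim A = z) ∧
        (∀ K : Subfield ℂ, Atiyah K G → ∀ B : Set ℂ,
          AlgebraicIndependent (K ⊔ k : Subfield ℂ) ((↑) : B → ℂ) →
          Atiyah (K ⊔ Subfield.closure B) G) ∧
        -- (d) matrices with algebraically independent coefficients
        (∀ (m n : ℕ) (S : Fin m → Fin n → Finset G) (c : Coef S → ℂ),
          AlgebraicIndependent k c → kerDim (mat S c) = defect S) ∧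
        -- (e) subgroups of groups with infinite conjugacy classes
        (∀ (H : Type) [Group H] [DecidableEq H] (φ : G →* H), Function.Injective φ →
          (∀ g : H, g ≠ 1 → {x | ∃ h : H, x = h * g * h⁻¹}.Infinite) →
          ∀ K : Subfield ℂ, Atiyah K H →
            (∃ L : Subfield ℂ, K ≤ L ∧ k ≤ L ∧ (∀ z : ℂ, IsAlgebraic L z) ∧ Atiyah L G) ∧
            ∀ (m n : ℕ) (A : Matrix (Fin m) (Fin n) (G →₀ ℂ)), ∃ q : ℚ, kerDim A = q) ∧
        -- (f) groups with the determinant conjecture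
        (Determinant G →
          (∀ (σ : ℂ ≃+* ℂ) (m n : ℕ) (A : Matrix (Fin m) (Fin n) (G →₀ ℂ)),
            (∀ i j g, IsAlgebraic ℚ (A i j g)) → kerDim (conjugate σ A) = kerDim A) ∧
          ((∀ (m n : ℕ) (A : Matrix (Fin m) (Fin n) (G →₀ ℂ)),
              (∀ i j g, IsAlgebraic ℚ (A i j g)) → ∃ z : ℤ, kerDim A = z) →
            k = ⊥ ∧ ∀ (m n : ℕ) (A : Matrix (Fin m) (Fin n) (G →₀ ℂ)), ∃ z : ℤ, kerDim A = z)) ∧
        (∀ (H : Type) [Group H] [DecidableEq H] (φ : G →* H), Function.Injective φ →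
          (∀ g : H, g ≠ 1 → {x | ∃ h : H, x = h * g * h⁻¹}.Infinite) →
          Determinant H → Atiyah ⊥ H → k = ⊥) := by
  intro G _ _
  obtain ⟨k, h1, h2, h3, h4, h5, h6, h7, h8⟩ := field_of_definition (G := G)
  refine ⟨k, h1, h2, h4, h3, h5, h6, fun K hK B hB => gen_base k K
    (fun m n N A hA => (h4 (K ⊔ k) le_sup_right m n N A hA).2) hK B hB, h7,
    fun H _ _ φ hφ hH K hK => icc_part k h3 H φ hφ hH K hK, fun hdet => ?_,
    fun H _ _ φ hφ hH hdet hA => ?_⟩
  swap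
  · exact eq_bot_of_overgroup k h3 H φ hφ hH (detC_of_determinant hdet) hA
  have hG := detC_of_determinant hdet
  refine ⟨fun σ m n A hA => kerDim_conjugate hG σ A hA, fun hA => ?_⟩
  have hk := eq_bot_of_le k h3 h8 hG (le_of_ai k h3 hG hA)
  refine ⟨hk, h6 fun m n B hB => hA m n B fun i j g => ?_⟩
  have h9 := hB i j g
  rw [hk] at h9
  exact isAlgebraic_of_bot _ h9

end Pool.Agent.Results.MP_c5ea68_al.ZariskiClosed
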